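import Pool.Agent.Helper44.HO.Asy
import Pool.Agent.Helper71.HO.Hilb
import Pool.Agent.Helper71.HO.MomE

set_option autoImplicit false
set_option linter.unusedSectionVars false

open scoped BigOperators
open Classical Module

namespace RMH

/-- (B) -/
theorem closureCount : ClosureCount := by
  intro ι V _ _ _ _ t a d h
  rw [cnt_eq]
  exact closure_count t a d h

/-- (D) -/
theorem largeCor : LargeCor :=
  fun V _ W F hF s hs hN hA => exists_large_cor W F hF s hs hN hA

/-- explicit form of the bound for higher orders -/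
theorem high_order_explicit (t : ℕ) (ht : 1 ≤ t) (m : ℕ)
    (hm : 2 ^ 18 ≤ m) (hmt : 6000 * (t : ℝ) ^ 2 * Real.log m ^ 2 ≤ m) :
    (RMC71.covRadius (t + 2) m : ℝ)
      ≤ 2 ^ m / 2 - 1 / 7 * ((m : ℝ) / (800 * t ^ 2 * Real.log m)) ^ ((t : ℝ) / 2)
        * Real.sqrt (2 ^ m) :=
  high_order closureCount largeCor t ht m hm hmt

end RMH
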