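import Pool.Agent.Helper44.HO.Count
import Pool.Agent.Helper71.RMC.Fold

set_option autoImplicit false
set_option linter.unusedSectionVars false

open scoped BigOperators
open Classical Module

namespace RMH

/-- real powers of two -/
noncomputable def P2 (x : ℝ) : ℝ := (2 : ℝ) ^ x

lemma P2_pos (x : ℝ) : 0 < P2 x := Real.rpow_pos_of_pos (by norm_num) x

lemma P2_add (x y : ℝ) : P2 (x + y) = P2 x * P2 y := Real.rpow_add (by norm_num) x y

lemma P2_mono {x y : ℝ} (h : x ≤ y) : P2 x ≤ P2 y :=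
  Real.rpow_le_rpow_of_exponent_le (by norm_num) h

lemma P2_nat (n : ℕ) : (2 : ℝ) ^ n = P2 n := (Real.rpow_natCast 2 n).symm

lemma P2_pow (x : ℝ) (n : ℕ) : P2 x ^ n = P2 (x * n) := by
  unfold P2
  rw [← Real.rpow_natCast, ← Real.rpow_mul (by norm_num)]

lemma one_le_P2 {x : ℝ} (h : 0 ≤ x) : 1 ≤ P2 x := Real.one_le_rpow (by norm_num) h

lemma cnt_exists {A B : Type} [Fintype A] [Fintype B] (P : B → A → Prop) :
    cnt (fun x => ∃ b, P b x) ≤ ∑ b, cnt (P b) := by
  rw [cnt_eq]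
  simp only [cnt_eq]
  refine le_trans (Finset.card_le_card ?_) Finset.card_biUnion_le
  intro x hx
  obtain ⟨b, hb⟩ := (Finset.mem_filter.1 hx).2
  exact Finset.mem_biUnion.2 ⟨b, Finset.mem_univ _, Finset.mem_filter.2 ⟨Finset.mem_univ _, hb⟩⟩

section NC

variable {ι : Type} [Fintype ι]
variable {V W : Type} [AddCommGroup V] [Module (ZMod 2) V] [Fintype V]
  [AddCommGroup W] [Module (ZMod 2) W] [Fintype W]

/-- the number of families with prescribed sums -/
lemma cnt_fiber_le (hB : ClosureCount) (t a : ℕ) (hn : 2 * Fintype.card ι < (a - t).choose t)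
    (j : ℕ) (hV : Fintype.card V = 2 ^ j) (lam : (V → ZMod 2) → ZMod 2) :
    (cnt (fun y : ι → V => ∀ p ∈ PP V (t + 2), ∑ i, p (y i) = lam p) : ℝ)
      ≤ (j + 1) * P2 (j * Fintype.card ι / 2 + (a + 2) * Fintype.card ι) := by
  have h1 := sq_le (ι := ι) (V := V) (t + 2) lam
  have hc : Fintype.card (ι ⊕ ι) = 2 * Fintype.card ι := by
    rw [Fintype.card_sum]
    ring
  have h2 := nX_le (ι := ι ⊕ ι) hB t a (Fintype.card ι) hc hn j V hV
  have h3 : (cnt (fun y : ι → V => ∀ p ∈ PP V (t + 2), ∑ i, p (y i) = lam p) : ℝ) ^ 2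
      ≤ (j + 1) * P2 (j * Fintype.card ι + (a + 2) * (2 * Fintype.card ι)) := by
    have h4 := h1.trans h2
    have h5 : ((cnt (fun y : ι → V => ∀ p ∈ PP V (t + 2), ∑ i, p (y i) = lam p) ^ 2 : ℕ) : ℝ)
        ≤ (((j + 1) * 2 ^ (j * Fintype.card ι + (a + 2) * (2 * Fintype.card ι)) : ℕ) : ℝ) := by
      exact_mod_cast h4
    rw [Nat.cast_pow] at h5
    refine h5.trans (le_of_eq ?_)
    rw [Nat.cast_mul, Nat.cast_pow, Nat.cast_ofNat, P2_nat]
    push_cast
    ring
  have h6 : ((j : ℝ) + 1) * P2 (j * Fintype.card ι + (a + 2) * (2 * Fintype.card ι))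
      ≤ ((j + 1) * P2 (j * Fintype.card ι / 2 + (a + 2) * Fintype.card ι)) ^ 2 := by
    rw [mul_pow, P2_pow]
    have h7 : (j * (Fintype.card ι : ℝ) / 2 + (a + 2) * Fintype.card ι) * ((2 : ℕ) : ℝ)
        = j * Fintype.card ι + (a + 2) * (2 * Fintype.card ι) := by
      push_cast
      ring
    rw [h7]
    have h8 : ((j : ℝ) + 1) ≤ (j + 1) ^ 2 := by
      have : (0 : ℝ) ≤ j := Nat.cast_nonneg _
      nlinarith
    exact mul_le_mul_of_nonneg_right h8 (P2_pos _).le
  have h9 := h3.trans h6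
  refine (pow_le_pow_iff_left₀ (Nat.cast_nonneg _) ?_ (two_ne_zero)).1 h9
  have := P2_pos (j * Fintype.card ι / 2 + (a + 2) * Fintype.card ι)
  positivity

/-- null families whose restriction to `Ω` is deficient -/
lemma cnt_omega_le (hB : ClosureCount) (t a : ℕ) (hn : 2 * Fintype.card ι < (a - t).choose t)
    (j : ℕ) (hV : Fintype.card V = 2 ^ j) (δ : ℝ) (Ω : Finset ι) :
    (cnt (fun z : ι → V => Null (t + 2) z ∧
      (finrank (ZMod 2) ↥((PP V t).map (pull (fun i : Ω => z i))) : ℝ)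
        ≤ Ω.card / 2 - δ * Fintype.card ι) : ℝ)
      ≤ (j + 1) * P2 ((a + 2) * Fintype.card ι + j * Fintype.card ι / 2
        - j * (δ * Fintype.card ι)) := by
  set n : ℝ := (Fintype.card ι : ℝ) with hndef
  have hj0 : (0 : ℝ) ≤ j := Nat.cast_nonneg _
  by_cases hneg : (Ω.card : ℝ) / 2 - δ * n < 0
  · have h0 : cnt (fun z : ι → V => Null (t + 2) z ∧
      (finrank (ZMod 2) ↥((PP V t).map (pull (fun i : Ω => z i))) : ℝ) ≤ Ω.card / 2 - δ * n)
        = 0 := by
      unfold cnt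
      rw [Nat.card_eq_zero]
      left
      refine ⟨fun z => ?_⟩
      have h1 := z.2.2
      have h2 : (0 : ℝ) ≤ (finrank (ZMod 2)
        ↥((PP V t).map (pull (fun i : Ω => (z : ι → V) i))) : ℝ) := Nat.cast_nonneg _
      linarith
    rw [h0, Nat.cast_zero]
    have := P2_pos ((a + 2) * n + j * n / 2 - j * (δ * n))
    positivity
  push Not at hneg
  set d : ℕ := ⌊(Ω.card : ℝ) / 2 - δ * n⌋₊ with hd
  have hdle : (d : ℝ) ≤ (Ω.card : ℝ) / 2 - δ * n := Nat.floor_le hneg
  have hcompl : Fintype.card {i // ¬ i ∈ Ω} = Fintype.card ι - Ω.card := by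
    rw [Fintype.card_subtype_compl, Fintype.card_coe]
  have hΩle : Ω.card ≤ Fintype.card ι := Finset.card_le_univ Ω
  have hcomplR : (Fintype.card {i // ¬ i ∈ Ω} : ℝ) = n - Ω.card := by
    rw [hcompl, Nat.cast_sub hΩle]
  -- the bound for the complement
  have hM1 : ∀ lam : (V → ZMod 2) → ZMod 2,
      (cnt (fun y : {i // ¬ i ∈ Ω} → V => ∀ p ∈ PP V (t + 2), ∑ i, p (y i) = lam p) : ℝ)
        ≤ (j + 1) * P2 (j * (n - Ω.card) / 2 + (a + 2) * (n - Ω.card)) := by
    intro lam
    have h1 := cnt_fiber_le (ι := {i // ¬ i ∈ Ω}) (V := V) hB t a (by rw [hcompl]; omega) j hV lam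
    rwa [hcomplR] at h1
  set M : ℕ := ⌊(j + 1) * P2 (j * (n - Ω.card) / 2 + (a + 2) * (n - Ω.card))⌋₊ with hM
  have hMle : (M : ℝ) ≤ (j + 1) * P2 (j * (n - Ω.card) / 2 + (a + 2) * (n - Ω.card)) := by
    refine Nat.floor_le ?_
    have := P2_pos (j * (n - Ω.card) / 2 + (a + 2) * (n - Ω.card))
    positivity
  have h2 := card_omega (ι := ι) (V := V) (t + 2) t d M Ω (fun lam => Nat.le_floor (hM1 lam))
  have h3 := hB Ω V t a d (by rw [Fintype.card_coe]; omega)
  rw [Fintype.card_coe, hV] at h3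
  have h4 : cnt (fun z : ι → V => Null (t + 2) z ∧
      (finrank (ZMod 2) ↥((PP V t).map (pull (fun i : Ω => z i))) : ℝ) ≤ Ω.card / 2 - δ * n)
      ≤ cnt (fun z : ι → V => Null (t + 2) z ∧
      finrank (ZMod 2) ↥((PP V t).map (pull (fun i : Ω => z i))) ≤ d) :=
    cnt_mono (fun z hz => ⟨hz.1, Nat.le_floor hz.2⟩)
  have h5 : (cnt (fun z : ι → V => Null (t + 2) z ∧
      (finrank (ZMod 2) ↥((PP V t).map (pull (fun i : Ω => z i))) : ℝ) ≤ Ω.card / 2 - δ * n) : ℝ)
      ≤ ((2 ^ Ω.card * (2 ^ j) ^ d * 2 ^ (a * Ω.card) : ℕ) : ℝ) * M := by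
    have := h4.trans (h2.trans (Nat.mul_le_mul_right M h3))
    exact_mod_cast this
  refine h5.trans ?_
  have h6 : ((2 ^ Ω.card * (2 ^ j) ^ d * 2 ^ (a * Ω.card) : ℕ) : ℝ)
      ≤ P2 (Ω.card + j * ((Ω.card : ℝ) / 2 - δ * n) + a * Ω.card) := by
    push_cast
    rw [← pow_mul, P2_nat, P2_nat, P2_nat, ← P2_add, ← P2_add]
    apply P2_mono
    push_cast
    have := mul_le_mul_of_nonneg_left hdle hj0
    linarith
  calc ((2 ^ Ω.card * (2 ^ j) ^ d * 2 ^ (a * Ω.card) : ℕ) : ℝ) * M
      ≤ P2 (Ω.card + j * ((Ω.card : ℝ) / 2 - δ * n) + a * Ω.card)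
        * ((j + 1) * P2 (j * (n - Ω.card) / 2 + (a + 2) * (n - Ω.card))) :=
        mul_le_mul h6 hMle (Nat.cast_nonneg _) (P2_pos _).le
    _ = (j + 1) * P2 ((Ω.card + j * ((Ω.card : ℝ) / 2 - δ * n) + a * Ω.card)
        + (j * (n - Ω.card) / 2 + (a + 2) * (n - Ω.card))) := by
        rw [P2_add (Ω.card + j * ((Ω.card : ℝ) / 2 - δ * n) + a * Ω.card)]
        ring
    _ ≤ _ := by
        refine mul_le_mul_of_nonneg_left (P2_mono ?_) (by positivity)
        have : (0 : ℝ) ≤ Ω.card := Nat.cast_nonneg _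
        nlinarith

/-- every injective family with small rank has a deficient restriction -/
lemma exists_omega (t κ : ℕ) (hκ : 1 ≤ κ) (hc : Fintype.card ι ≤ 2 ^ κ)
    (hpos : 0 < Fintype.card ι) (z : ι → V) (hz : Function.Injective z)
    (hd : (finrank (ZMod 2) ↥((PP V (t + 1)).map (pull z)) : ℝ)
      < (1 / 2 + 1 / (100 * κ)) * Fintype.card ι) :
    ∃ Ω : Finset ι, (finrank (ZMod 2) ↥((PP V t).map (pull (fun i : Ω => z i))) : ℝ)
      ≤ Ω.card / 2 - 1 / (100 * κ) * Fintype.card ι := by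
  have h1 := dichotomy ((Aff V).map (pull z)) ((PP V t).map (pull z)) ⟨1, one_mem_Aff44, rfl⟩
    (fun i j hij => by
      have hne : z i - z j ≠ 0 := sub_ne_zero.2 (fun h => hij (hz h))
      obtain ⟨b, hb⟩ := RMC.exists_dual_one hne
      refine ⟨fun k => b (z k), ⟨fun v => b v, dual_mem_Aff44 b, rfl⟩, fun h => ?_⟩
      rw [map_sub] at hb
      have h2 : b (z i) = b (z j) := h
      rw [h2, sub_self] at hb
      exact zero_ne_one hb)
    κ hκ hc hpos (by
      rw [← map_pull_mul, show PP V t * Aff V = PP V (t + 1) from (pow_succ _ _).symm]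
      exact hd)
  obtain ⟨Ω, hΩ⟩ := h1
  refine ⟨Ω, ?_⟩
  rw [map_pull_pull] at hΩ
  refine hΩ.trans (le_of_eq ?_)
  ring

lemma card_split' (r : ℕ) (G : (ι → V) → Prop) :
    ∃ S : Finset (ι → V), (∀ z, z ∈ S ↔ Null (r + 1) z ∧ G z) ∧
      cnt (fun x : ι → V × W => Null (r + 1) x ∧ G (fun i => (x i).1))
      ≤ ∑ z ∈ S, Fintype.card W ^ (Fintype.card ι
        - finrank (ZMod 2) ↥((PP V r).map (pull z))) := by
  refine ⟨_, fun z => ?_, card_split r G⟩
  rw [Finset.mem_filter]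
  exact ⟨fun h => h.2, fun h => ⟨Finset.mem_univ _, h⟩⟩

/-- the assembly -/
theorem good_count (hB : ClosureCount) (t a κ w j l : ℕ) (hι : Fintype.card ι = 2 * w)
    (hw0 : 1 ≤ w) (ha : 4 * w < (a - t).choose t) (hκ : 1 ≤ κ) (hw : 2 * w ≤ 2 ^ κ)
    (hV : Fintype.card V = 2 ^ j) (hW : Fintype.card W = 2 ^ l) (hjl : 2 * l ≤ j) :
    (cnt (fun x : ι → V × W => Null (t + 2) x ∧ Function.Injective (fun i => (x i).1)) : ℝ)
      ≤ (2 * (j + 1) + 2 * w)
        * P2 ((j + l) * w + (a + 3) * (2 * w) - l * (2 * w) / (100 * κ)) := by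
  obtain ⟨S, hS, hsplit⟩ : ∃ S : Finset (ι → V), (∀ z, z ∈ S ↔ Null (t + 2) z ∧
      Function.Injective z) ∧
      cnt (fun x : ι → V × W => Null (t + 2) x ∧ Function.Injective (fun i => (x i).1))
      ≤ ∑ z ∈ S, Fintype.card W ^ (Fintype.card ι
        - finrank (ZMod 2) ↥((PP V (t + 1)).map (pull z))) :=
    card_split' (ι := ι) (V := V) (W := W) (t + 1) (fun z => Function.Injective z)
  set n : ℝ := 2 * (w : ℝ) with hn
  have hcard : (Fintype.card ι : ℝ) = n := by rw [hι]; push_cast; rfl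
  have hn0 : 0 < n := by
    have : (1 : ℝ) ≤ w := by exact_mod_cast hw0
    linarith
  set δ : ℝ := 1 / (100 * (κ : ℝ)) with hδ
  have hκ1 : (1 : ℝ) ≤ κ := by exact_mod_cast hκ
  have hδ0 : 0 < δ := by positivity
  have hl0 : (0 : ℝ) ≤ l := Nat.cast_nonneg _
  have hj0 : (0 : ℝ) ≤ j := Nat.cast_nonneg _
  have ha0 : (0 : ℝ) ≤ a := Nat.cast_nonneg _
  have hjlR : 2 * (l : ℝ) ≤ j := by exact_mod_cast hjl
  set E : ℝ := (j + l) * w + (a + 3) * (2 * w) - l * (2 * w) / (100 * κ) with hE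
  have hE' : E = (j + l) * n / 2 + (a + 3) * n - l * (δ * n) := by
    rw [hE, hn, hδ]
    ring
  set d : (ι → V) → ℕ := fun z => finrank (ZMod 2) ↥((PP V (t + 1)).map (pull z)) with hd
  have hdle : ∀ z, d z ≤ Fintype.card ι := by
    intro z
    have := Submodule.finrank_le ((PP V (t + 1)).map (pull z))
    rwa [finrank_fintype_fun_eq_card] at this
  -- the three parts
  set A3 : (ι → V) → Prop := fun z => ∃ Ω : Finset ι, Null (t + 2) z ∧
      (finrank (ZMod 2) ↥((PP V t).map (pull (fun i : Ω => z i))) : ℝ)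
        ≤ Ω.card / 2 - δ * Fintype.card ι with hA3
  set fa : ℝ := P2 (l * ((1 / 2 - δ) * n)) with hfa
  set fb : (ι → V) → ℝ := fun z => ∑ e ∈ Finset.range (2 * w),
    if (finrank (ZMod 2) ↥((PP V t).map (pull z)) ≤ e ∧ (e : ℝ) < (1 / 2 - δ) * n)
    then P2 (l * (n - e)) else 0 with hfb
  set fc : (ι → V) → ℝ := fun z => if A3 z then P2 (l * ((1 / 2 + δ) * n)) else 0 with hfc
  have hfb0 : ∀ z, 0 ≤ fb z := by
    intro z
    refine Finset.sum_nonneg (fun e _ => ?_)
    split_ifs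
    · exact (P2_pos _).le
    · exact le_rfl
  have hfc0 : ∀ z, 0 ≤ fc z := by
    intro z
    show 0 ≤ if A3 z then P2 (l * ((1 / 2 + δ) * n)) else 0
    split_ifs
    · exact (P2_pos _).le
    · exact le_rfl
  have hpt : ∀ z ∈ S, (((2 ^ l) ^ (Fintype.card ι - d z) : ℕ) : ℝ) ≤ fa + fb z + fc z := by
    intro z hz
    have hz2 := (hS z).1 hz
    have h1 : (((2 ^ l) ^ (Fintype.card ι - d z) : ℕ) : ℝ) = P2 (l * (n - d z)) := by
      push_cast
      rw [← pow_mul, P2_nat, Nat.cast_mul, Nat.cast_sub (hdle z), hcard]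
    rw [h1]
    by_cases hA : (1 / 2 + δ) * n ≤ d z
    · have h2 : P2 (l * (n - d z)) ≤ fa := by
        apply P2_mono
        apply mul_le_mul_of_nonneg_left _ hl0
        linarith
      have := hfb0 z
      have := hfc0 z
      linarith
    push Not at hA
    by_cases hBc : (d z : ℝ) < (1 / 2 - δ) * n
    · have h3 : P2 (l * (n - d z)) ≤ fb z := by
        have h4 : d z ∈ Finset.range (2 * w) := by
          rw [Finset.mem_range]
          have h5 : (d z : ℝ) < n := by nlinarith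
          rw [hn] at h5
          exact_mod_cast h5
        refine le_trans (le_of_eq ?_) (Finset.single_le_sum (f := fun e =>
          if (finrank (ZMod 2) ↥((PP V t).map (pull z)) ≤ e ∧ (e : ℝ) < (1 / 2 - δ) * n)
          then P2 (l * (n - e)) else 0) (fun e _ => ?_) h4)
        · show _ = if (finrank (ZMod 2) ↥((PP V t).map (pull z)) ≤ d z
            ∧ (d z : ℝ) < (1 / 2 - δ) * n) then P2 (l * (n - d z)) else 0
          rw [if_pos ⟨finrank_mono_t t z, hBc⟩]
        · show 0 ≤ if (finrank (ZMod 2) ↥((PP V t).map (pull z)) ≤ e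
            ∧ (e : ℝ) < (1 / 2 - δ) * n) then P2 (l * (n - e)) else 0
          split_ifs
          · exact (P2_pos _).le
          · exact le_rfl
      have := (P2_pos (l * ((1 / 2 - δ) * n))).le
      have := hfc0 z
      linarith
    push Not at hBc
    have h6 : A3 z := by
      obtain ⟨Ω, hΩ⟩ := exists_omega t κ hκ (by rw [hι]; exact hw) (by omega) z hz2.2
        (by rw [hcard]; exact hA)
      exact ⟨Ω, hz2.1, hΩ⟩
    have h7 : P2 (l * (n - d z)) ≤ fc z := by
      show _ ≤ if A3 z then P2 (l * ((1 / 2 + δ) * n)) else 0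
      rw [if_pos h6]
      apply P2_mono
      apply mul_le_mul_of_nonneg_left _ hl0
      linarith
    have := (P2_pos (l * ((1 / 2 - δ) * n))).le
    have := hfb0 z
    linarith
  have hsum : (cnt (fun x : ι → V × W => Null (t + 2) x ∧ Function.Injective (fun i => (x i).1)) : ℝ)
      ≤ ∑ z ∈ S, (fa + fb z + fc z) := by
    rw [hW] at hsplit
    have h1 : (cnt (fun x : ι → V × W =>
        Null (t + 2) x ∧ Function.Injective (fun i => (x i).1)) : ℝ)
        ≤ ((∑ z ∈ S, (2 ^ l) ^ (Fintype.card ι - d z) : ℕ) : ℝ) :=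
      Nat.cast_le.2 hsplit
    refine h1.trans ?_
    rw [Nat.cast_sum]
    exact Finset.sum_le_sum hpt
  refine hsum.trans ?_
  rw [Finset.sum_add_distrib, Finset.sum_add_distrib]
  -- part (a)
  have hpa : ∑ _z ∈ S, fa ≤ (j + 1) * P2 E := by
    rw [Finset.sum_const, nsmul_eq_mul]
    have h1 : S.card ≤ nX ι V (t + 2) := by
      unfold nX
      rw [cnt_eq]
      exact Finset.card_le_card (fun z hz => Finset.mem_filter.2
        ⟨Finset.mem_univ _, ((hS z).1 hz).1⟩)
    have h2 := nX_le (ι := ι) hB t a w hι (by omega) j V hV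
    have h3 : (S.card : ℝ) ≤ (j + 1) * P2 (j * w + (a + 2) * (2 * w)) := by
      have h4 : (S.card : ℝ) ≤ (((j + 1) * 2 ^ (j * w + (a + 2) * (2 * w)) : ℕ) : ℝ) := by
        exact_mod_cast h1.trans h2
      refine h4.trans (le_of_eq ?_)
      rw [Nat.cast_mul, Nat.cast_pow, Nat.cast_ofNat, P2_nat]
      push_cast
      ring
    calc (S.card : ℝ) * fa ≤ (j + 1) * P2 (j * w + (a + 2) * (2 * w)) * fa :=
          mul_le_mul_of_nonneg_right h3 (P2_pos _).le
      _ = (j + 1) * P2 ((j * w + (a + 2) * (2 * w)) + l * ((1 / 2 - δ) * n)) := by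
          rw [hfa, P2_add (j * w + (a + 2) * (2 * w))]
          ring
      _ ≤ (j + 1) * P2 E := by
          refine mul_le_mul_of_nonneg_left (P2_mono ?_) (by positivity)
          rw [hE', hn]
          nlinarith
  -- part (b)
  have hpb : ∑ z ∈ S, fb z ≤ n * P2 E := by
    rw [hfb, Finset.sum_comm]
    have h1 : ∀ e ∈ Finset.range (2 * w), ∑ z ∈ S,
        (if (finrank (ZMod 2) ↥((PP V t).map (pull z)) ≤ e ∧ (e : ℝ) < (1 / 2 - δ) * n)
        then P2 (l * (n - e)) else 0) ≤ P2 E := by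
      intro e _
      by_cases he : (e : ℝ) < (1 / 2 - δ) * n
      · have h2 := hB ι V t a e (by rw [hι]; omega)
        rw [hι, hV, cnt_eq] at h2
        calc ∑ z ∈ S,
            (if (finrank (ZMod 2) ↥((PP V t).map (pull z)) ≤ e ∧ (e : ℝ) < (1 / 2 - δ) * n)
            then P2 (l * (n - e)) else 0)
            ≤ ∑ z : ι → V, (if (finrank (ZMod 2) ↥((PP V t).map (pull z)) ≤ e)
              then P2 (l * (n - e)) else 0) := by
              refine (Finset.sum_le_sum (fun z _ => ?_)).trans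
                (Finset.sum_le_sum_of_subset_of_nonneg (Finset.subset_univ S) (fun z _ _ => ?_))
              · by_cases h3 : finrank (ZMod 2) ↥((PP V t).map (pull z)) ≤ e
                · rw [if_pos ⟨h3, he⟩, if_pos h3]
                · rw [if_neg (fun h => h3 h.1), if_neg h3]
              · split_ifs
                · exact (P2_pos _).le
                · exact le_rfl
          _ = ((Finset.univ.filter (fun z : ι → V =>
              finrank (ZMod 2) ↥((PP V t).map (pull z)) ≤ e)).card : ℝ) * P2 (l * (n - e)) := by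
              rw [← Finset.sum_filter, Finset.sum_const, nsmul_eq_mul]
          _ ≤ ((2 ^ (2 * w) * (2 ^ j) ^ e * 2 ^ (a * (2 * w)) : ℕ) : ℝ) * P2 (l * (n - e)) := by
              refine mul_le_mul_of_nonneg_right ?_ (P2_pos _).le
              exact_mod_cast h2
          _ = P2 ((n + j * e + a * n) + l * (n - e)) := by
              rw [P2_add]
              congr 1
              push_cast
              rw [← pow_mul, P2_nat, P2_nat, P2_nat, ← P2_add, ← P2_add]
              congr 1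
              push_cast
              ring
          _ ≤ P2 E := by
              apply P2_mono
              rw [hE']
              have h5 : ((j : ℝ) - l) * e ≤ (j - l) * ((1 / 2 - δ) * n) :=
                mul_le_mul_of_nonneg_left he.le (by linarith)
              have h6 : 0 ≤ ((j : ℝ) - 2 * l) * (δ * n) :=
                mul_nonneg (by linarith) (by positivity)
              nlinarith
      · have h7 : ∑ z ∈ S,
            (if (finrank (ZMod 2) ↥((PP V t).map (pull z)) ≤ e ∧ (e : ℝ) < (1 / 2 - δ) * n)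
            then P2 (l * (n - e)) else 0) = 0 := by
          refine Finset.sum_eq_zero (fun z _ => ?_)
          rw [if_neg (fun h => he h.2)]
        rw [h7]
        exact (P2_pos _).le
    refine (Finset.sum_le_sum h1).trans (le_of_eq ?_)
    rw [Finset.sum_const, nsmul_eq_mul, Finset.card_range, hn]
    push_cast
    ring
  -- part (c)
  have hpc : ∑ z ∈ S, fc z ≤ (j + 1) * P2 E := by
    have h1 : ∑ z ∈ S, fc z ≤ (cnt A3 : ℝ) * P2 (l * ((1 / 2 + δ) * n)) := by
      rw [cnt_eq, hfc, ← Finset.sum_filter, Finset.sum_const, nsmul_eq_mul]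
      refine mul_le_mul_of_nonneg_right ?_ (P2_pos _).le
      exact_mod_cast Finset.card_le_card (Finset.filter_subset_filter _ (Finset.subset_univ S))
    have h2 : (cnt A3 : ℝ) ≤ P2 n * ((j + 1) * P2 ((a + 2) * n + j * n / 2 - j * (δ * n))) := by
      have h3 : (cnt A3 : ℝ) ≤ ((∑ Ω : Finset ι, cnt (fun z : ι → V => Null (t + 2) z ∧
          (finrank (ZMod 2) ↥((PP V t).map (pull (fun i : Ω => z i))) : ℝ)
            ≤ Ω.card / 2 - δ * Fintype.card ι) : ℕ) : ℝ) := by
        exact_mod_cast cnt_exists (fun (Ω : Finset ι) (z : ι → V) => Null (t + 2) z ∧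
          (finrank (ZMod 2) ↥((PP V t).map (pull (fun i : Ω => z i))) : ℝ)
            ≤ Ω.card / 2 - δ * Fintype.card ι)
      refine h3.trans ?_
      rw [Nat.cast_sum]
      refine (Finset.sum_le_sum (fun Ω _ =>
        cnt_omega_le (ι := ι) (V := V) hB t a (by rw [hι]; omega) j hV δ Ω)).trans ?_
      rw [hcard, Finset.sum_const, Finset.card_univ, Fintype.card_finset, nsmul_eq_mul, hι]
      refine le_of_eq ?_
      congr 1
      push_cast
      rw [P2_nat, hn]
      push_cast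
      rfl
    calc ∑ z ∈ S, fc z ≤ (cnt A3 : ℝ) * P2 (l * ((1 / 2 + δ) * n)) := h1
      _ ≤ P2 n * ((j + 1) * P2 ((a + 2) * n + j * n / 2 - j * (δ * n)))
          * P2 (l * ((1 / 2 + δ) * n)) := mul_le_mul_of_nonneg_right h2 (P2_pos _).le
      _ = (j + 1) * P2 (n + ((a + 2) * n + j * n / 2 - j * (δ * n))
          + l * ((1 / 2 + δ) * n)) := by
          rw [P2_add (n + ((a + 2) * n + j * n / 2 - j * (δ * n))), P2_add n]
          ring
      _ ≤ (j + 1) * P2 E := by
          refine mul_le_mul_of_nonneg_left (P2_mono ?_) (by positivity)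
          rw [hE']
          have h6 : 0 ≤ ((j : ℝ) - 2 * l) * (δ * n) :=
            mul_nonneg (by linarith) (by positivity)
          nlinarith
  linarith

end NC

/-- (C) the number of injective null families -/
theorem null_count_cnt (hB : ClosureCount) (t a κ w m : ℕ) (ha : 4 * w < (a - t).choose t)
    (hw : 2 * w ≤ 2 ^ κ) (hw0 : 1 ≤ w) (V : Type) [AddCommGroup V] [Module (ZMod 2) V] [Fintype V]
    (hV : Fintype.card V = 2 ^ m) (hm : 4 * κ ≤ m) :
    (cnt (fun x : Fin (2 * w) → V => Function.Injective x ∧ Null (t + 2) x) : ℝ)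
      ≤ 4 * (m + 1) *
        (2 : ℝ) ^ ((m * w : ℝ) + 2 * (a + 4) * w - 2 * w * (m / 4 : ℕ) / (100 * κ)) := by
  have hκ : 1 ≤ κ := by
    by_contra h
    have : κ = 0 := by omega
    subst this
    rw [pow_zero] at hw
    omega
  set l := m / 4 with hl
  set j := m - l with hj
  have hjl : j + l = m := by omega
  have hV1 : Fintype.card (Fin j → ZMod 2) = 2 ^ j := by
    rw [Fintype.card_fun, ZMod.card, Fintype.card_fin]
  have hW1 : Fintype.card (Fin l → ZMod 2) = 2 ^ l := by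
    rw [Fintype.card_fun, ZMod.card, Fintype.card_fin]
  have h1 := good_split (ι := Fin (2 * w)) (V := V) (V1 := Fin j → ZMod 2)
    (W1 := Fin l → ZMod 2) m j l (by omega) hV hV1 hW1 hjl (t + 2) (by
      rw [Fintype.card_fin]
      calc 2 * (2 * w) ^ 2 ≤ 2 * (2 ^ κ) ^ 2 := by gcongr
        _ = 2 ^ (κ * 2 + 1) := by rw [← pow_mul, pow_succ]; ring
        _ ≤ 2 ^ j := Nat.pow_le_pow_right (by norm_num) (by omega))
  have h2 := good_count (ι := Fin (2 * w)) (V := Fin j → ZMod 2) (W := Fin l → ZMod 2) hB t a κ w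
    j l (Fintype.card_fin _) hw0 ha hκ hw hV1 hW1 (by omega)
  have h3 : (cnt (fun x : Fin (2 * w) → V => Function.Injective x ∧ Null (t + 2) x) : ℝ)
      ≤ 2 * (cnt (fun x : Fin (2 * w) → (Fin j → ZMod 2) × (Fin l → ZMod 2) =>
        Null (t + 2) x ∧ Function.Injective (fun i => (x i).1)) : ℝ) := by
    exact_mod_cast h1
  refine h3.trans ((mul_le_mul_of_nonneg_left h2 (by norm_num)).trans ?_)
  have hmR : (m : ℝ) = j + l := by rw [← hjl]; push_cast; ring
  have h4 : P2 ((j + l) * w + (a + 3) * (2 * w) - l * (2 * w) / (100 * κ))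
      * P2 (2 * w) = (2 : ℝ) ^ ((m * w : ℝ) + 2 * (a + 4) * w - 2 * w * (l : ℕ) / (100 * κ)) := by
    rw [← P2_add]
    unfold P2
    congr 1
    rw [hmR]
    ring
  rw [← h4]
  have h5 : (2 : ℝ) * (2 * (j + 1) + 2 * w) ≤ 4 * (m + 1) * P2 (2 * w) := by
    have h6 : (2 * w : ℝ) + 1 ≤ P2 (2 * w) := by
      have h7 : (2 * w + 1 : ℕ) ≤ 2 ^ (2 * w) := Nat.lt_two_pow_self
      have h8 : ((2 * w + 1 : ℕ) : ℝ) ≤ ((2 ^ (2 * w) : ℕ) : ℝ) := by exact_mod_cast h7
      rw [Nat.cast_pow, Nat.cast_ofNat, P2_nat] at h8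
      push_cast at h8
      linarith
    have h9 : (j : ℝ) ≤ m := by
      rw [hmR]
      have : (0 : ℝ) ≤ l := Nat.cast_nonneg _
      linarith
    have h10 : (0 : ℝ) ≤ m := Nat.cast_nonneg _
    have h11 : (0 : ℝ) ≤ w := Nat.cast_nonneg _
    nlinarith
  calc (2 : ℝ) * ((2 * (j + 1) + 2 * w)
        * P2 ((j + l) * w + (a + 3) * (2 * w) - l * (2 * w) / (100 * κ)))
      = (2 * (2 * (j + 1) + 2 * w))
        * P2 ((j + l) * w + (a + 3) * (2 * w) - l * (2 * w) / (100 * κ)) := by ring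
    _ ≤ (4 * (m + 1) * P2 (2 * w))
        * P2 ((j + l) * w + (a + 3) * (2 * w) - l * (2 * w) / (100 * κ)) :=
        mul_le_mul_of_nonneg_right h5 (P2_pos _).le
    _ = _ := by ring

/-- null sets are counted by injective null families -/
lemma nullCard_le {V : Type} [AddCommGroup V] [Module (ZMod 2) V] [Fintype V] (r w : ℕ) :
    nullCard (PP V r) w ≤ cnt (fun x : Fin w → V => Function.Injective x ∧ Null r x) := by
  have h1 : nullCard (PP V r) w
      = cnt (fun Y : Finset V => Y.card = w ∧ ∀ p ∈ PP V r, ∑ y ∈ Y, p y = 0) := by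
    rw [cnt_eq]
    unfold nullCard
    congr 1
    ext Y
    simp [Finset.mem_powersetCard]
  rw [h1]
  refine cnt_le_of_inj (fun Y i => if h : Y.card = w then
    (((Y.equivFinOfCardEq h).symm i : Y) : V) else 0) ?_ ?_
  · rintro Y ⟨hw, hY⟩
    simp only [dif_pos hw]
    refine ⟨fun i j hij => (Y.equivFinOfCardEq hw).symm.injective (Subtype.ext hij), ?_⟩
    intro p hp
    rw [← hY p hp, ← Finset.sum_coe_sort Y p]
    exact (Equiv.sum_comp (Y.equivFinOfCardEq hw).symm (fun y : Y => p y))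
  · rintro Y Y' ⟨hw, -⟩ ⟨hw', -⟩ h
    ext v
    constructor
    · intro hv
      have h2 := congrFun h (Y.equivFinOfCardEq hw ⟨v, hv⟩)
      simp only [dif_pos hw, dif_pos hw', Equiv.symm_apply_apply] at h2
      rw [h2]
      exact Subtype.property _
    · intro hv
      have h2 := congrFun h (Y'.equivFinOfCardEq hw' ⟨v, hv⟩)
      simp only [dif_pos hw, dif_pos hw', Equiv.symm_apply_apply] at h2
      rw [← h2]
      exact Subtype.property _

end RMH
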