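import Pool.Agent.Helper44.HO.Close

set_option autoImplicit false
set_option linter.unusedSectionVars false

open scoped BigOperators Nat

namespace RMH

/-- the choice of the parameters -/
theorem params (t : ℕ) (ht : 1 ≤ t) (m : ℕ) (hm : 2 ^ 18 ≤ m)
    (hmt : 6000 * (t : ℝ) ^ 2 * Real.log m ^ 2 ≤ m) :
    ∃ a κ lam s : ℕ, 6 ≤ s ∧ 4 * s < (a - t).choose t ∧ 2 * s ≤ 2 ^ κ ∧ m + 1 ≤ 2 ^ lam ∧
      50 * κ * (2 * a + 14 + κ + lam) ≤ m / 4 ∧
      0.2393 * ((m : ℝ) / (800 * t ^ 2 * Real.log m)) ^ t ≤ s := by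
  set x : ℝ := Real.log m with hx
  set L : ℕ := Nat.log 2 m + 1 with hL
  have hm0 : m ≠ 0 := by
    have : (2 : ℕ) ^ 18 = 262144 := by norm_num
    omega
  have hmR : (2 : ℝ) ^ 18 ≤ m := by exact_mod_cast hm
  have hmpos : (0 : ℝ) < m := lt_of_lt_of_le (by norm_num) hmR
  have hTR : (1 : ℝ) ≤ t := by exact_mod_cast ht
  have hl2 := Real.log_two_gt_d9
  have hl2' := Real.log_two_lt_d9
  -- lower bound for the logarithm
  have hx18 : 18 * Real.log 2 ≤ x := by
    have h1 := Real.log_le_log (by norm_num) hmR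
    rw [Real.log_pow] at h1
    exact_mod_cast h1
  have hx12 : (12.4766 : ℝ) ≤ x := by linarith
  -- `L`
  have hL19 : 19 ≤ L := by
    have h1 : 18 ≤ Nat.log 2 m := Nat.le_log_of_pow_le (by norm_num) hm
    omega
  have hL19R : (19 : ℝ) ≤ L := by exact_mod_cast hL19
  have hmL : m < 2 ^ L := Nat.lt_pow_succ_log_self (by norm_num) m
  have hLx : (L : ℝ) ≤ 1.523 * x := by
    have h1 : (2 : ℝ) ^ (L - 1) ≤ m := by
      have h2 : 2 ^ (L - 1) ≤ m := by
        rw [hL, Nat.add_sub_cancel]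
        exact Nat.pow_log_le_self 2 hm0
      exact_mod_cast h2
    have h2 := Real.log_le_log (by positivity) h1
    rw [Real.log_pow, Nat.cast_sub (by omega)] at h2
    push_cast at h2
    have h3 : (L : ℝ) * Real.log 2 ≤ x + Real.log 2 := by linarith
    have h4 : (L : ℝ) * 0.6931471803 ≤ L * Real.log 2 :=
      mul_le_mul_of_nonneg_left hl2.le (by linarith)
    nlinarith
  -- `a`
  set T : ℝ := (t : ℝ) with hT
  set u : ℝ := m / (510 * T * L) with hu
  have hu0 : 0 ≤ u := by positivity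
  set a : ℕ := ⌊u⌋₊ with ha
  have hau : (a : ℝ) ≤ u := Nat.floor_le hu0
  have hau' : u - 1 ≤ a := (Nat.sub_one_lt_floor u).le
  set Y : ℝ := m / (800 * T ^ 2 * x) with hY
  have hx0 : 0 < x := by linarith
  have hY93 : 93.57 ≤ Y := by
    rw [hY, le_div_iff₀ (by positivity)]
    have h1 : (93.57 : ℝ) * (800 * T ^ 2 * x) ≤ 6000 * T ^ 2 * x ^ 2 := by
      have h2 : 0 ≤ T ^ 2 * x * (6000 * x - 93.57 * 800) :=
        mul_nonneg (by positivity) (by linarith)
      nlinarith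
    linarith
  -- the main comparison `u / T - 2 ≥ Y`
  have huY : Y + 2 ≤ u / T := by
    have h1 : 1.0299 * Y ≤ u / T := by
      rw [hY, hu, div_div, mul_div_assoc', div_le_div_iff₀ (by positivity) (by positivity)]
      have h2 : (L : ℝ) * (m * T ^ 2) ≤ 1.523 * x * (m * T ^ 2) :=
        mul_le_mul_of_nonneg_right hLx (by positivity)
      have h3 : 0 ≤ x * (m * T ^ 2) := by positivity
      nlinarith
    linarith
  have hnn : Y ≤ ((a - t + 1 - t : ℕ) : ℝ) / T := by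
    rw [le_div_iff₀ (by positivity)]
    have h1 : (a : ℝ) + 1 - 2 * T ≤ ((a - t + 1 - t : ℕ) : ℝ) := by
      have h2 : a + 1 ≤ (a - t + 1 - t) + 2 * t := by omega
      have h3 : ((a + 1 : ℕ) : ℝ) ≤ (((a - t + 1 - t) + 2 * t : ℕ) : ℝ) := by exact_mod_cast h2
      push_cast at h3
      linarith
    have h2 : (Y + 2) * T ≤ u := by
      have := (le_div_iff₀ (by positivity)).1 huY
      exact this
    nlinarith
  have hchoose : Y ^ t ≤ ((a - t).choose t : ℝ) := by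
    have h1 := Nat.pow_le_choose (α := ℝ) t (a - t)
    refine le_trans ?_ h1
    have h2 : (t ! : ℝ) ≤ T ^ t := by
      rw [hT]
      exact_mod_cast Nat.factorial_le_pow t
    have h3 : (0 : ℝ) < (t ! : ℝ) := by exact_mod_cast Nat.factorial_pos t
    calc Y ^ t ≤ (((a - t + 1 - t : ℕ) : ℝ) / T) ^ t :=
          pow_le_pow_left₀ (by linarith) hnn t
      _ = ((a - t + 1 - t : ℕ) : ℝ) ^ t / T ^ t := div_pow _ _ _
      _ ≤ ((a - t + 1 - t : ℕ) : ℝ) ^ t / (t ! : ℝ) := by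
          gcongr
  have hYt : Y ≤ Y ^ t := by
    calc Y = Y ^ 1 := (pow_one Y).symm
      _ ≤ Y ^ t := pow_le_pow_right₀ (by linarith) ht
  -- `s`
  set C : ℕ := (a - t).choose t with hC
  have hC93 : (93.57 : ℝ) ≤ C := by linarith
  have hsR : (C : ℝ) / 4 - 1 ≤ (((C - 1) / 4 : ℕ) : ℝ) := by
    have h1 : C ≤ 4 * ((C - 1) / 4) + 4 := by omega
    have h2 : (C : ℝ) ≤ ((4 * ((C - 1) / 4) + 4 : ℕ) : ℝ) := by exact_mod_cast h1
    push_cast at h2
    linarith
  have hC1 : 1 ≤ C := by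
    have : (1 : ℝ) ≤ C := by linarith
    exact_mod_cast this
  refine ⟨a, t * L, L, (C - 1) / 4, ?_, ?_, ?_, hmL, ?_, ?_⟩
  · have h1 : (6 : ℝ) ≤ (((C - 1) / 4 : ℕ) : ℝ) := by linarith
    exact_mod_cast h1
  · omega
  · have h1 : C ≤ (a - t) ^ t := Nat.choose_le_pow (a - t) t
    have h2 : a ≤ 2 ^ L := by
      have h3 : (a : ℝ) ≤ m := by
        refine hau.trans ?_
        rw [hu]
        refine div_le_self hmpos.le ?_
        nlinarith
      have h4 : a ≤ m := by exact_mod_cast h3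
      omega
    have h3 : (a - t) ^ t ≤ (2 ^ L) ^ t := Nat.pow_le_pow_left (by omega) t
    have h4 : (2 ^ L) ^ t = 2 ^ (t * L) := by rw [← pow_mul, mul_comm]
    rw [← h4]
    omega
  · rw [Nat.le_div_iff_mul_le (by norm_num)]
    have h1 : ((50 * (t * L) * (2 * a + 14 + t * L + L) * 4 : ℕ) : ℝ) ≤ m := by
      push_cast
      rw [← hT]
      have h2 : 400 * T * L * a ≤ 400 / 510 * m := by
        calc 400 * T * L * a ≤ 400 * T * L * u := by gcongr
          _ = 400 / 510 * m := by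
            rw [hu]
            field_simp
      have h3 : (19 : ℝ) ≤ T * L := by nlinarith
      have h4 : (L : ℝ) ≤ T * L := by nlinarith
      have h5 : 200 * (T * L) * (14 + T * L + L) ≤ 547.37 * (T * L) ^ 2 := by
        have h51 : 14 + T * L + L ≤ (547.37 / 200) * (T * L) := by linarith
        calc 200 * (T * L) * (14 + T * L + L) ≤ 200 * (T * L) * ((547.37 / 200) * (T * L)) :=
              mul_le_mul_of_nonneg_left h51 (by linarith)
          _ = 547.37 * (T * L) ^ 2 := by ring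
      have h6 : (T * L) ^ 2 ≤ 2.31953 * (T ^ 2 * x ^ 2) := by
        have h7 : (L : ℝ) ^ 2 ≤ (1.523 * x) ^ 2 := pow_le_pow_left₀ (by linarith) hLx 2
        have h8 := mul_le_mul_of_nonneg_left h7 (sq_nonneg T)
        have h9 := mul_nonneg (sq_nonneg T) (sq_nonneg x)
        calc (T * L) ^ 2 = T ^ 2 * (L : ℝ) ^ 2 := by ring
          _ ≤ T ^ 2 * (1.523 * x) ^ 2 := h8
          _ = 2.319529 * (T ^ 2 * x ^ 2) := by ring
          _ ≤ 2.31953 * (T ^ 2 * x ^ 2) := mul_le_mul_of_nonneg_right (by norm_num) h9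
      have h10 : 6000 * (T ^ 2 * x ^ 2) ≤ m := by
        refine le_trans (le_of_eq ?_) hmt
        ring
      calc (50 * (T * L) * (2 * a + 14 + T * L + L) * 4 : ℝ)
          = 400 * T * L * a + 200 * (T * L) * (14 + T * L + L) := by ring
        _ ≤ 400 / 510 * m + 547.37 * (2.31953 * (T ^ 2 * x ^ 2)) := by linarith
        _ ≤ m := by linarith
    exact_mod_cast h1
  · have h1 : Y ^ t / 4 - 1 ≤ (((C - 1) / 4 : ℕ) : ℝ) := by linarith
    refine le_trans ?_ h1
    linarith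

lemma sqrt_part (Y : ℝ) (hY : 0 ≤ Y) (t s : ℕ) (h : 0.2393 * Y ^ t ≤ s) :
    1 / 7 * Y ^ ((t : ℝ) / 2) ≤ Real.sqrt ((s : ℝ) / Real.exp 1) / 2 := by
  have he : Real.exp 1 < 2.7182818286 := Real.exp_one_lt_d9
  have hepos := Real.exp_pos 1
  have h1 : (2 / 7 * Y ^ ((t : ℝ) / 2)) ^ 2 ≤ (s : ℝ) / Real.exp 1 := by
    rw [mul_pow]
    have h2 : (Y ^ ((t : ℝ) / 2)) ^ 2 = Y ^ t := by
      rw [← Real.rpow_natCast, ← Real.rpow_mul hY, ← Real.rpow_natCast]
      congr 1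
      push_cast
      ring
    rw [h2, le_div_iff₀ hepos]
    have h3 : 0 ≤ Y ^ t := by positivity
    have h4 : (2 / 7 : ℝ) ^ 2 * Y ^ t * Real.exp 1 ≤ (2 / 7 : ℝ) ^ 2 * Y ^ t * 2.7182818286 := by
      gcongr
    nlinarith
  have h5 := Real.sqrt_le_sqrt h1
  rw [Real.sqrt_sq (by positivity)] at h5
  linarith

/-- the final bound, in terms of `t = r - 2` -/
theorem high_order (hB : ClosureCount) (hD : LargeCor) (t : ℕ) (ht : 1 ≤ t) (m : ℕ)
    (hm : 2 ^ 18 ≤ m) (hmt : 6000 * (t : ℝ) ^ 2 * Real.log m ^ 2 ≤ m) :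
    (RMC71.covRadius (t + 2) m : ℝ)
      ≤ 2 ^ m / 2 - 1 / 7 * ((m : ℝ) / (800 * t ^ 2 * Real.log m)) ^ ((t : ℝ) / 2)
        * Real.sqrt (2 ^ m) := by
  obtain ⟨a, κ, lam, s, h1, h2, h3, h4, h5, h6⟩ := params t ht m hm hmt
  have hcard : Fintype.card (Fin m → ZMod 2) = 2 ^ m := by
    rw [Fintype.card_fun, ZMod.card, Fintype.card_fin]
  have hcardR : (Fintype.card (Fin m → ZMod 2) : ℝ) = 2 ^ m := by rw [hcard]; push_cast; rfl
  have h7 := covRadius_le_of (t + 2) m s (fun F hF => by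
    have h8 := key_high hB hD t a κ lam s m h1 h2 h3 h4 h5 (Fin m → ZMod 2) hcard F hF
    rwa [hcardR] at h8)
  have hlog : 0 ≤ Real.log m := Real.log_natCast_nonneg m
  have h9 := sqrt_part ((m : ℝ) / (800 * t ^ 2 * Real.log m)) (by positivity) t s h6
  have h10 := mul_le_mul_of_nonneg_right h9 (Real.sqrt_nonneg ((2 : ℝ) ^ m))
  linarith

end RMH
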