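import Pool.Agent.Helper44.HO.Pull

set_option autoImplicit false
set_option linter.unusedSectionVars false

open scoped BigOperators
open Classical Module

namespace RMH

section Avg

variable {K V W : Type} [Field K] [Algebra (ZMod 2) K] [Fintype K]
  [AddCommGroup V] [Module (ZMod 2) V] [Fintype V]
  [AddCommGroup W] [Module (ZMod 2) W] [Fintype W]

/-- few multipliers map a nonzero vector into the kernel of the first projection -/
lemma card_bad_pair (e : K ≃ₗ[ZMod 2] V × W) (u v : K) (huv : u ≠ v) :
    (Finset.univ.filter (fun c : Kˣ => (e ((c : K) * u)).1 = (e ((c : K) * v)).1)).card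
      ≤ Fintype.card W - 1 := by
  have hne : u - v ≠ 0 := sub_ne_zero.2 huv
  have h1 : (Finset.univ.filter (fun w : W => w ≠ 0)).card = Fintype.card W - 1 := by
    rw [Finset.filter_ne', Finset.card_erase_of_mem (Finset.mem_univ _), Finset.card_univ]
  rw [← h1]
  refine Finset.card_le_card_of_injOn (fun c : Kˣ => (e ((c : K) * (u - v))).2) ?_ ?_
  · intro c hc
    rw [Finset.mem_coe, Finset.mem_filter] at hc
    rw [Finset.mem_coe, Finset.mem_filter]
    refine ⟨Finset.mem_univ _, fun h0 => ?_⟩
    have h2 : e ((c : K) * (u - v)) = 0 := by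
      refine Prod.ext ?_ h0
      rw [mul_sub, map_sub, Prod.fst_sub, hc.2, sub_self]
      rfl
    have h3 : (c : K) * (u - v) = 0 := by
      have := congrArg e.symm h2
      rwa [LinearEquiv.symm_apply_apply, map_zero] at this
    exact (mul_ne_zero c.ne_zero hne) h3
  · intro c hc c' hc' hcc
    rw [Finset.mem_coe, Finset.mem_filter] at hc hc'
    have h2 : e ((c : K) * (u - v)) = e ((c' : K) * (u - v)) := by
      refine Prod.ext ?_ hcc
      rw [mul_sub, map_sub, Prod.fst_sub, hc.2, sub_self, mul_sub, map_sub, Prod.fst_sub, hc'.2,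
        sub_self]
    have h3 := e.injective h2
    exact Units.ext (mul_right_cancel₀ hne h3)

lemma card_bad {ι : Type} [Fintype ι] (e : K ≃ₗ[ZMod 2] V × W) (x : ι → K)
    (hx : Function.Injective x) :
    (Finset.univ.filter (fun c : Kˣ =>
      ¬ Function.Injective (fun i => (e ((c : K) * x i)).1))).card
      ≤ Fintype.card ι ^ 2 * (Fintype.card W - 1) := by
  have h1 : (Finset.univ.filter (fun c : Kˣ =>
      ¬ Function.Injective (fun i => (e ((c : K) * x i)).1)))
      ⊆ (Finset.univ.filter (fun q : ι × ι => q.1 ≠ q.2)).biUnion (fun q =>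
        Finset.univ.filter (fun c : Kˣ => (e ((c : K) * x q.1)).1 = (e ((c : K) * x q.2)).1)) := by
    intro c hc
    rw [Finset.mem_filter] at hc
    have hc2 := hc.2
    rw [Function.Injective] at hc2
    push Not at hc2
    obtain ⟨i, j, hij, hne⟩ := hc2
    rw [Finset.mem_biUnion]
    exact ⟨(i, j), Finset.mem_filter.2 ⟨Finset.mem_univ _, hne⟩,
      Finset.mem_filter.2 ⟨Finset.mem_univ _, hij⟩⟩
  refine (Finset.card_le_card h1).trans (Finset.card_biUnion_le.trans ?_)
  refine (Finset.sum_le_card_nsmul _ _ (Fintype.card W - 1) (fun q hq => ?_)).trans ?_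
  · exact card_bad_pair e _ _ (fun h => (Finset.mem_filter.1 hq).2 (hx h))
  · rw [smul_eq_mul]
    refine Nat.mul_le_mul_right _ ?_
    refine (Finset.card_filter_le _ _).trans ?_
    rw [Finset.card_univ, Fintype.card_prod, sq]

/-- multiplication by a unit as a linear map -/
lemma null_unit {ι : Type} [Fintype ι] (r : ℕ) (c : Kˣ) (x : ι → K) (h : Null r x) :
    Null r (fun i => (c : K) * x i) :=
  h.comp (LinearMap.mulLeft (ZMod 2) (c : K))

theorem averaging {ι : Type} [Fintype ι] (e : K ≃ₗ[ZMod 2] V × W) (r : ℕ)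
    (hn : 2 * (Fintype.card ι ^ 2 * (Fintype.card W - 1)) ≤ Fintype.card Kˣ) :
    cnt (fun x : ι → K => Function.Injective x ∧ Null r x)
      ≤ 2 * cnt (fun x : ι → K => Null r x ∧ Function.Injective (fun i => (e (x i)).1)) := by
  rw [cnt_eq, cnt_eq]
  set X := Finset.univ.filter (fun x : ι → K => Function.Injective x ∧ Null r x) with hX
  set Y := Finset.univ.filter (fun x : ι → K =>
        Null r x ∧ Function.Injective (fun i => (e (x i)).1)) with hY
  -- for each multiplier the number of good translates is the number of good families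
  have h1 : ∀ c : Kˣ, (X.filter (fun x =>
      Function.Injective (fun i => (e ((c : K) * x i)).1))).card ≤ Y.card := by
    intro c
    refine Finset.card_le_card_of_injOn (fun x i => (c : K) * x i) ?_ ?_
    · intro x hx
      rw [Finset.mem_coe, Finset.mem_filter, hX, Finset.mem_filter] at hx
      rw [Finset.mem_coe, hY, Finset.mem_filter]
      exact ⟨Finset.mem_univ _, null_unit r c x hx.1.2.2, hx.2⟩
    · intro x _ x' _ hxx
      funext i
      exact mul_left_cancel₀ c.ne_zero (congrFun hxx i)
  -- for each family at least half of the multipliers are good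
  have h2 : ∀ x ∈ X, Fintype.card Kˣ ≤ 2 * (Finset.univ.filter (fun c : Kˣ =>
      Function.Injective (fun i => (e ((c : K) * x i)).1))).card := by
    intro x hx
    rw [hX, Finset.mem_filter] at hx
    have h3 := card_bad e x hx.2.1
    have h4 := Finset.card_filter_add_card_filter_not (s := (Finset.univ : Finset Kˣ))
      (fun c : Kˣ => Function.Injective (fun i => (e ((c : K) * x i)).1))
    rw [Finset.card_univ] at h4
    omega
  have h5 : ∑ c : Kˣ, (X.filter (fun x =>
      Function.Injective (fun i => (e ((c : K) * x i)).1))).card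
      = ∑ x ∈ X, (Finset.univ.filter (fun c : Kˣ =>
        Function.Injective (fun i => (e ((c : K) * x i)).1))).card := by
    simp only [Finset.card_filter]
    rw [Finset.sum_comm]
  have h6 : Fintype.card Kˣ * X.card ≤ Fintype.card Kˣ * (2 * Y.card) := by
    calc Fintype.card Kˣ * X.card = ∑ x ∈ X, Fintype.card Kˣ := by
          rw [Finset.sum_const, smul_eq_mul, mul_comm]
      _ ≤ ∑ x ∈ X, 2 * (Finset.univ.filter (fun c : Kˣ =>
        Function.Injective (fun i => (e ((c : K) * x i)).1))).card := Finset.sum_le_sum h2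
      _ = 2 * ∑ c : Kˣ, (X.filter (fun x =>
          Function.Injective (fun i => (e ((c : K) * x i)).1))).card := by
          rw [h5, Finset.mul_sum]
      _ ≤ 2 * ∑ _c : Kˣ, Y.card := Nat.mul_le_mul_left _ (Finset.sum_le_sum (fun c _ => h1 c))
      _ = Fintype.card Kˣ * (2 * Y.card) := by
          rw [Finset.sum_const, Finset.card_univ, smul_eq_mul]
          ring
  exact Nat.le_of_mul_le_mul_left h6 Fintype.card_pos

end Avg

/-- averaging for a general space -/
theorem good_split {ι V V1 W1 : Type} [Fintype ι] [AddCommGroup V] [Module (ZMod 2) V] [Fintype V]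
    [AddCommGroup V1] [Module (ZMod 2) V1] [Fintype V1]
    [AddCommGroup W1] [Module (ZMod 2) W1] [Fintype W1]
    (m j l : ℕ) (hm : m ≠ 0) (hV : Fintype.card V = 2 ^ m) (hV1 : Fintype.card V1 = 2 ^ j)
    (hW1 : Fintype.card W1 = 2 ^ l) (h : j + l = m) (r : ℕ)
    (hn : 2 * Fintype.card ι ^ 2 ≤ 2 ^ j) :
    cnt (fun x : ι → V => Function.Injective x ∧ Null r x)
      ≤ 2 * cnt (fun x : ι → V1 × W1 => Null r x ∧ Function.Injective (fun i => (x i).1)) := by
  have : Fintype (GaloisField 2 m) := Fintype.ofFinite _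
  have hK : Fintype.card (GaloisField 2 m) = 2 ^ m := by
    rw [← Nat.card_eq_fintype_card]
    exact GaloisField.card 2 m hm
  have hVW : Fintype.card (V1 × W1) = 2 ^ m := by
    rw [Fintype.card_prod, hV1, hW1, ← pow_add, h]
  obtain ⟨e⟩ := equiv_of_card (GaloisField 2 m) (V1 × W1) m hK hVW
  obtain ⟨f⟩ := equiv_of_card V (GaloisField 2 m) m hV hK
  have hu : Fintype.card (GaloisField 2 m)ˣ = 2 ^ m - 1 := by
    rw [Fintype.card_units, hK]
  have h1 := averaging (K := GaloisField 2 m) (ι := ι) e r (by
    rw [hu, hW1]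
    calc 2 * (Fintype.card ι ^ 2 * (2 ^ l - 1)) = 2 * Fintype.card ι ^ 2 * (2 ^ l - 1) := by ring
      _ ≤ 2 ^ j * (2 ^ l - 1) := Nat.mul_le_mul_right _ hn
      _ = 2 ^ m - 2 ^ j := by rw [Nat.mul_sub, mul_one, ← pow_add, h]
      _ ≤ 2 ^ m - 1 := by
        have := Nat.one_le_two_pow (n := j)
        omega)
  refine le_trans ?_ (h1.trans (Nat.mul_le_mul_left 2 ?_))
  · refine cnt_le_of_inj (fun x i => f (x i)) ?_ ?_
    · intro x hx
      exact ⟨f.injective.comp hx.1, (null_equiv f r x).2 hx.2⟩
    · intro x y _ _ hxy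
      funext i
      exact f.injective (congrFun hxy i)
  · refine cnt_le_of_inj (fun x i => e (x i)) ?_ ?_
    · intro x hx
      exact ⟨(null_equiv e r x).2 hx.1, hx.2⟩
    · intro x y _ _ hxy
      funext i
      exact e.injective (congrFun hxy i)

end RMH
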