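import Pool.Agent.Helper44.HO.Key
import Pool.Agent.Helper71.RMC.Final
import Pool.Agent.Helper71.RMC.Rec

set_option autoImplicit false
set_option linter.unusedSectionVars false

open scoped BigOperators

namespace RMH
open RMC

lemma Aff_poly {m : ℕ} {q : (Fin m → ZMod 2) → ZMod 2} (hq : q ∈ Aff (Fin m → ZMod 2)) :
    ∃ p : MvPolynomial (Fin m) (ZMod 2), p.totalDegree ≤ 1 ∧
      ∀ x, MvPolynomial.eval x p = q x := by
  unfold Aff at hq
  induction hq using Submodule.span_induction with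
  | mem x hx =>
    rcases hx with hx | ⟨a, rfl⟩
    · refine ⟨1, ?_, ?_⟩
      · rw [MvPolynomial.totalDegree_one]; omega
      · intro y; rw [hx, map_one]; rfl
    · exact dual_poly a
  | zero => exact ⟨0, by rw [MvPolynomial.totalDegree_zero]; omega, fun y => by rw [map_zero]; rfl⟩
  | add x y _ _ hx hy =>
    obtain ⟨p, hp, hp'⟩ := hx
    obtain ⟨r, hr, hr'⟩ := hy
    refine ⟨p + r, (MvPolynomial.totalDegree_add _ _).trans (max_le hp hr), ?_⟩
    intro z; rw [map_add, hp', hr']; rfl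
  | smul c x _ hx =>
    obtain ⟨p, hp, hp'⟩ := hx
    refine ⟨MvPolynomial.C c * p, ?_, ?_⟩
    · refine (MvPolynomial.totalDegree_mul _ _).trans ?_
      rw [MvPolynomial.totalDegree_C, zero_add]; exact hp
    · intro z; rw [map_mul, hp', MvPolynomial.eval_C]; rfl

/-- (E1) -/
theorem exists_poly {m : ℕ} (r : ℕ) : ∀ {q : (Fin m → ZMod 2) → ZMod 2},
    q ∈ PP (Fin m → ZMod 2) r →
    ∃ p : MvPolynomial (Fin m) (ZMod 2), p.totalDegree ≤ r ∧ ∀ x, MvPolynomial.eval x p = q x := by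
  induction r with
  | zero =>
    intro q hq
    rw [PP, pow_zero, Submodule.mem_one] at hq
    obtain ⟨c, rfl⟩ := hq
    refine ⟨MvPolynomial.C c, by rw [MvPolynomial.totalDegree_C], fun x => ?_⟩
    rw [MvPolynomial.eval_C]
    rfl
  | succ r ih =>
    intro q hq
    rw [PP, pow_succ] at hq
    induction hq using Submodule.mul_induction_on' with
    | mem_mul_mem a ha b hb =>
      obtain ⟨p, hp, hp'⟩ := ih ha
      obtain ⟨u, hu, hu'⟩ := Aff_poly hb
      refine ⟨p * u, (MvPolynomial.totalDegree_mul _ _).trans (by omega), ?_⟩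
      intro y; rw [map_mul, hp', hu']; rfl
    | add x _ y _ hx hy =>
      obtain ⟨p, hp, hp'⟩ := hx
      obtain ⟨u, hu, hu'⟩ := hy
      refine ⟨p + u, (MvPolynomial.totalDegree_add _ _).trans (max_le hp hu), ?_⟩
      intro z; rw [map_add, hp', hu']; rfl

/-- from correlations to the covering radius -/
theorem covRadius_le_of (r m s : ℕ)
    (h : ∀ F : (Fin m → ZMod 2) → ℝ, (∀ x, F x ^ 2 = 1) →
      ∃ q ∈ PP (Fin m → ZMod 2) r, ((s : ℝ) / Real.exp 1) * 2 ^ m ≤ cor F q ^ 2) :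
    (RMC71.covRadius r m : ℝ)
      ≤ 2 ^ m / 2 - Real.sqrt ((s : ℝ) / Real.exp 1) * Real.sqrt (2 ^ m) / 2 := by
  obtain ⟨f, -, hf⟩ := Finset.exists_mem_eq_sup (Finset.univ : Finset ((Fin m → ZMod 2) → ZMod 2))
    ⟨0, Finset.mem_univ _⟩ (fun f => RMC71.rmDist r m f)
  unfold RMC71.covRadius
  rw [hf]
  have hcard : Fintype.card (Fin m → ZMod 2) = 2 ^ m := by
    rw [Fintype.card_fun, ZMod.card, Fintype.card_fin]
  have hcardR : (Fintype.card (Fin m → ZMod 2) : ℝ) = 2 ^ m := by rw [hcard]; push_cast; rfl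
  obtain ⟨q, hq, hcor⟩ := h (fun x => chi (f x)) (fun x => by rw [pow_two, chi_sq])
  have hsq : Real.sqrt ((s : ℝ) / Real.exp 1) * Real.sqrt (2 ^ m)
      ≤ |cor (fun x => chi (f x)) q| := by
    rw [← Real.sqrt_mul (by positivity)]
    exact Real.sqrt_le_sqrt hcor |>.trans (by rw [Real.sqrt_sq_eq_abs])
  -- choose the sign
  obtain ⟨q', hq', hc'⟩ : ∃ q' ∈ PP (Fin m → ZMod 2) r,
      cor (fun x => chi (f x)) q' = |cor (fun x => chi (f x)) q| := by
    rcases le_total 0 (cor (fun x => chi (f x)) q) with h | h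
    · exact ⟨q, hq, (abs_of_nonneg h).symm⟩
    · refine ⟨q + 1, (PP _ r).add_mem hq (one_mem_PP r), ?_⟩
      rw [abs_of_nonpos h]
      unfold cor
      rw [← Finset.sum_neg_distrib]
      refine Finset.sum_congr rfl (fun x _ => ?_)
      rw [Pi.add_apply, Pi.one_apply, chi_add, chi_one]; ring
  obtain ⟨p, hp, hp'⟩ := exists_poly r hq'
  have h1 := cor_eq_dist f q'
  rw [hcardR] at h1
  have h2 : cor (fun x => chi (f x)) q' = ∑ x, chi (f x) * chi (q' x) := rfl
  rw [← h2, hc'] at h1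
  have h3 : ((RMC71.rmDist r m f : ℕ) : ℝ)
      ≤ ((Finset.univ.filter (fun x => f x ≠ q' x)).card : ℝ) := by
    have h4 := RMC71.rmDist_le r m f p hp
    simp only [hp'] at h4
    exact_mod_cast h4
  have h5 : ∀ i1 i2 : DecidablePred (fun x => f x ≠ q' x),
      (@Finset.filter _ (fun x => f x ≠ q' x) i1 Finset.univ).card
        = (@Finset.filter _ (fun x => f x ≠ q' x) i2 Finset.univ).card := by
    intro i1 i2
    rw [Subsingleton.elim i1 i2]
  refine h3.trans ?_
  have h6 : ((Finset.univ.filter (fun x => f x ≠ q' x)).card : ℝ)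
      = (2 ^ m - |cor (fun x => chi (f x)) q|) / 2 := by
    rw [h5 _ (fun x => Classical.propDecidable _)] 
    rw [h5 _ (fun x => Classical.propDecidable _)] at h1
    linarith
  rw [h6]
  linarith

end RMH
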