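import Pool.Agent.Helper44.HO.Avg

set_option autoImplicit false
set_option linter.unusedSectionVars false

open scoped BigOperators
open Classical Module

namespace RMH

/-- the statement of the closure count -/
def ClosureCount : Prop :=
  ∀ (ι V : Type) [Fintype ι] [AddCommGroup V] [Module (ZMod 2) V] [Fintype V]
    (t a d : ℕ), Fintype.card ι < (a - t).choose t →
    cnt (fun y : ι → V => finrank (ZMod 2) ↥((PP V t).map (pull y)) ≤ d)
      ≤ 2 ^ Fintype.card ι * Fintype.card V ^ d * 2 ^ (a * Fintype.card ι)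

section Count

variable {ι : Type} [Fintype ι]
variable {V W : Type} [AddCommGroup V] [Module (ZMod 2) V] [Fintype V]
  [AddCommGroup W] [Module (ZMod 2) W] [Fintype W]

lemma nX_split (r : ℕ) :
    nX ι (V × W) (r + 1) ≤ ∑ z ∈ Finset.univ.filter (fun z : ι → V => Null (r + 1) z),
      Fintype.card W ^ (Fintype.card ι - finrank (ZMod 2) ↥((PP V r).map (pull z))) := by
  have h := card_split (ι := ι) (V := V) (W := W) r (fun _ => True)
  simp only [and_true] at h
  exact h

lemma finrank_mono_t (t : ℕ) (z : ι → V) :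
    finrank (ZMod 2) ↥((PP V t).map (pull z)) ≤ finrank (ZMod 2) ↥((PP V (t + 1)).map (pull z)) :=
  Submodule.finrank_mono (Submodule.map_mono (PP_le_succ t))

lemma nX_step (hB : ClosureCount) (t a p : ℕ) (hι : Fintype.card ι = 2 * p)
    (ha : 2 * p < (a - t).choose t) (hW : Fintype.card W = 2) :
    nX ι (V × W) (t + 2) ≤ nX ι V (t + 2) * 2 ^ p
      + 2 ^ (2 * p) * Fintype.card V ^ p * 2 ^ (a * (2 * p)) * 2 ^ (2 * p) := by
  refine (nX_split (ι := ι) (V := V) (W := W) (t + 1)).trans ?_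
  rw [hW, hι]
  set S := Finset.univ.filter (fun z : ι → V => Null (t + 1 + 1) z) with hS
  calc ∑ z ∈ S, 2 ^ (2 * p - finrank (ZMod 2) ↥((PP V (t + 1)).map (pull z)))
      ≤ ∑ z ∈ S, (2 ^ p
        + if finrank (ZMod 2) ↥((PP V t).map (pull z)) ≤ p then 2 ^ (2 * p) else 0) := by
        refine Finset.sum_le_sum (fun z _ => ?_)
        by_cases h : finrank (ZMod 2) ↥((PP V t).map (pull z)) ≤ p
        · rw [if_pos h]
          have : 2 ^ (2 * p - finrank (ZMod 2) ↥((PP V (t + 1)).map (pull z))) ≤ 2 ^ (2 * p) :=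
            Nat.pow_le_pow_right (by norm_num) (Nat.sub_le _ _)
          exact this.trans (Nat.le_add_left _ _)
        · rw [if_neg h, add_zero]
          have h2 := finrank_mono_t t z
          exact Nat.pow_le_pow_right (by norm_num) (by omega)
    _ = S.card * 2 ^ p
        + (S.filter (fun z => finrank (ZMod 2) ↥((PP V t).map (pull z)) ≤ p)).card
          * 2 ^ (2 * p) := by
        rw [Finset.sum_add_distrib, Finset.sum_const, smul_eq_mul, ← Finset.sum_filter,
          Finset.sum_const, smul_eq_mul]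
    _ ≤ _ := by
        have h4 : S.card = nX ι V (t + 2) := by
          unfold nX
          rw [cnt_eq]
        rw [h4]
        refine Nat.add_le_add (le_of_eq rfl) (Nat.mul_le_mul_right _ ?_)
        have h3 := hB ι V t a p (by rw [hι]; exact ha)
        rw [hι, cnt_eq] at h3
        exact (Finset.card_le_card (Finset.filter_subset_filter _ (Finset.subset_univ S))).trans h3

/-- (C1) the a priori bound for the number of null families -/
theorem nX_le (hB : ClosureCount) (t a p : ℕ) (hι : Fintype.card ι = 2 * p)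
    (ha : 2 * p < (a - t).choose t) (k : ℕ) :
    ∀ (V : Type) [AddCommGroup V] [Module (ZMod 2) V] [Fintype V], Fintype.card V = 2 ^ k →
      nX ι V (t + 2) ≤ (k + 1) * 2 ^ (k * p + (a + 2) * (2 * p)) := by
  induction k with
  | zero =>
    intro V _ _ _ hV
    have h1 : nX ι V (t + 2) ≤ Fintype.card (ι → V) := by
      unfold nX
      rw [cnt_eq]
      exact (Finset.card_filter_le _ _).trans (le_of_eq Finset.card_univ)
    rw [Fintype.card_fun, hV, pow_zero, one_pow] at h1
    refine h1.trans ?_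
    have := Nat.one_le_two_pow (n := 0 * p + (a + 2) * (2 * p))
    omega
  | succ k ih =>
    intro V _ _ _ hV
    have hV1 : Fintype.card (Fin k → ZMod 2) = 2 ^ k := by
      rw [Fintype.card_fun, ZMod.card, Fintype.card_fin]
    have hVW : Fintype.card ((Fin k → ZMod 2) × ZMod 2) = 2 ^ (k + 1) := by
      rw [Fintype.card_prod, hV1, ZMod.card, pow_succ]
    obtain ⟨e⟩ := equiv_of_card V ((Fin k → ZMod 2) × ZMod 2) (k + 1) hV hVW
    refine (nX_equiv e _).trans ?_
    have h1 := nX_step (ι := ι) (V := Fin k → ZMod 2) (W := ZMod 2) hB t a p hι ha (ZMod.card 2)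
    have h2 := ih (Fin k → ZMod 2) hV1
    refine h1.trans ?_
    rw [hV1]
    have h3 : (2 : ℕ) ^ (2 * p) * (2 ^ k) ^ p * 2 ^ (a * (2 * p)) * 2 ^ (2 * p)
        = 2 ^ (k * p + (a + 2) * (2 * p)) := by
      rw [← pow_mul, ← pow_add, ← pow_add, ← pow_add]
      congr 1
      ring
    rw [h3]
    have h4 : (2 : ℕ) ^ ((k + 1) * p + (a + 2) * (2 * p))
        = 2 ^ (k * p + (a + 2) * (2 * p)) * 2 ^ p := by
      rw [← pow_add]
      congr 1
      ring
    rw [h4]
    have h5 := Nat.mul_le_mul_right (2 ^ p) h2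
    have h6 : (2 : ℕ) ^ (k * p + (a + 2) * (2 * p))
        ≤ 2 ^ (k * p + (a + 2) * (2 * p)) * 2 ^ p :=
      Nat.le_mul_of_pos_right _ (Nat.two_pow_pos p)
    calc nX ι (Fin k → ZMod 2) (t + 2) * 2 ^ p + 2 ^ (k * p + (a + 2) * (2 * p))
        ≤ (k + 1) * 2 ^ (k * p + (a + 2) * (2 * p)) * 2 ^ p
          + 2 ^ (k * p + (a + 2) * (2 * p)) * 2 ^ p := Nat.add_le_add h5 h6
      _ = _ := by ring

/-- (C2) the number of families with prescribed sums -/
theorem sq_le (r : ℕ) (lam : (V → ZMod 2) → ZMod 2) :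
    cnt (fun y : ι → V => ∀ p ∈ PP V r, ∑ i, p (y i) = lam p) ^ 2 ≤ nX (ι ⊕ ι) V r := by
  rw [sq]
  unfold nX
  have h1 : cnt (fun y : ι → V => ∀ p ∈ PP V r, ∑ i, p (y i) = lam p)
      * cnt (fun y : ι → V => ∀ p ∈ PP V r, ∑ i, p (y i) = lam p)
      = Nat.card ({y : ι → V // ∀ p ∈ PP V r, ∑ i, p (y i) = lam p}
        × {y : ι → V // ∀ p ∈ PP V r, ∑ i, p (y i) = lam p}) := (Nat.card_prod _ _).symm
  rw [h1]
  refine Nat.card_le_card_of_injective (fun q => (⟨Sum.elim q.1.1 q.2.1, fun p hp => ?_⟩ :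
    {x : ι ⊕ ι → V // Null r x})) ?_
  · rw [Fintype.sum_sum_type]
    simp only [Sum.elim_inl, Sum.elim_inr]
    rw [q.1.2 p hp, q.2.2 p hp, RMC.zmod2_add_self]
  · rintro ⟨⟨u, hu⟩, ⟨v, hv⟩⟩ ⟨⟨u', hu'⟩, ⟨v', hv'⟩⟩ h
    have h0 : Sum.elim u v = Sum.elim u' v' := congrArg Subtype.val h
    have h1 : u = u' := by
      funext i
      exact congrFun h0 (Sum.inl i)
    have h2 : v = v' := by
      funext i
      exact congrFun h0 (Sum.inr i)
    subst h1 h2
    rfl

/-- (C3) null families with small rank on `Ω` -/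
theorem card_omega (r t d M : ℕ) (Ω : Finset ι)
    (hM : ∀ lam : (V → ZMod 2) → ZMod 2,
      cnt (fun y : {i // ¬ i ∈ Ω} → V => ∀ p ∈ PP V r, ∑ i, p (y i) = lam p) ≤ M) :
    cnt (fun z : ι → V => Null r z ∧
      finrank (ZMod 2) ↥((PP V t).map (pull (fun i : Ω => z i))) ≤ d)
      ≤ cnt (fun u : Ω → V => finrank (ZMod 2) ↥((PP V t).map (pull u)) ≤ d) * M := by
  rw [cnt_eq, cnt_eq]
  set S := Finset.univ.filter (fun z : ι → V => Null r z ∧
      finrank (ZMod 2) ↥((PP V t).map (pull (fun i : Ω => z i))) ≤ d) with hS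
  set T := Finset.univ.filter (fun u : Ω → V =>
        finrank (ZMod 2) ↥((PP V t).map (pull u)) ≤ d) with hT
  have h1 : S.card = ∑ u ∈ T, (S.filter (fun z => (fun i : Ω => z i) = u)).card := by
    refine Finset.card_eq_sum_card_fiberwise (fun z hz => ?_)
    rw [Finset.mem_coe, hS, Finset.mem_filter] at hz
    rw [Finset.mem_coe, hT, Finset.mem_filter]
    exact ⟨Finset.mem_univ _, hz.2.2⟩
  rw [h1]
  refine (Finset.sum_le_card_nsmul _ _ M (fun u _ => ?_)).trans (le_of_eq (smul_eq_mul _ _))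
  refine le_trans ?_ (hM (fun p => ∑ i : Ω, p (u i)))
  rw [cnt_eq]
  refine Finset.card_le_card_of_injOn (fun z (i : {i // ¬ i ∈ Ω}) => z i) ?_ ?_
  · intro z hz
    rw [Finset.mem_coe, Finset.mem_filter, hS, Finset.mem_filter] at hz
    rw [Finset.mem_coe, Finset.mem_filter]
    refine ⟨Finset.mem_univ _, fun p hp => ?_⟩
    have h2 := hz.1.2.1 p hp
    rw [← Fintype.sum_subtype_add_sum_subtype (fun i => i ∈ Ω) (fun i => p (z i))] at h2
    have h3 : ∑ i : {i // i ∈ Ω}, p (z i) = ∑ i : Ω, p (u i) := by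
      refine Finset.sum_congr rfl (fun i _ => ?_)
      have h6 : z i = u i := congrFun hz.2 i
      rw [h6]
    obtain ⟨S0, hS0⟩ : ∃ S0, S0 = ∑ i : Ω, p (u i) := ⟨_, rfl⟩
    rw [← hS0] at h3 ⊢
    have h4 : ∀ inst : Fintype {i // i ∈ Ω},
        (@Finset.univ _ inst).sum (fun i => p (z i)) + S0 = 0 := by
      intro inst
      have h7 : inst = Finset.Subtype.fintype Ω := Subsingleton.elim _ _
      rw [h7, h3]
      exact RMC.zmod2_add_self _
    exact add_left_cancel (h2.trans (h4 _).symm)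
  · intro z hz z' hz' hzz
    rw [Finset.mem_coe, Finset.mem_filter] at hz hz'
    funext i
    by_cases hi : i ∈ Ω
    · have h2 := congrFun hz.2 ⟨i, hi⟩
      have h3 := congrFun hz'.2 ⟨i, hi⟩
      exact h2.trans h3.symm
    · exact congrFun hzz ⟨i, hi⟩

end Count

end RMH
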