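import Mathlib
import Pool.Agent.Helper71.RMC.Basic

set_option autoImplicit false

open scoped BigOperators
open Classical Module

namespace RMH

section V

variable (V : Type) [AddCommGroup V] [Module (ZMod 2) V]

/-- affine functions on `V` -/
def Aff : Submodule (ZMod 2) (V → ZMod 2) :=
  Submodule.span (ZMod 2) (insert 1 {f | ∃ a : Module.Dual (ZMod 2) V, f = fun x => a x})

/-- functions of degree at most `r` on `V` -/
def PP (r : ℕ) : Submodule (ZMod 2) (V → ZMod 2) := Aff V ^ r

end V

/-- pullback of functions along a family of points -/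
def pull {ι V : Type} (y : ι → V) : (V → ZMod 2) →ₗ[ZMod 2] (ι → ZMod 2) :=
  LinearMap.funLeft (ZMod 2) (ZMod 2) y

@[simp] lemma pull_apply {ι V : Type} (y : ι → V) (p : V → ZMod 2) (i : ι) :
    pull y p i = p (y i) := rfl

/-- the number of `w`-subsets of `V` on which every function in `W` sums to zero -/
noncomputable def nullCard {V : Type} [Fintype V] (W : Submodule (ZMod 2) (V → ZMod 2)) (w : ℕ) :
    ℕ :=
  ((Finset.univ.powersetCard w).filter (fun Y : Finset V => ∀ p ∈ W, ∑ y ∈ Y, p y = 0)).card

/-- families on which every function of degree at most `r` sums to zero -/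
def Null {ι V : Type} [Fintype ι] [AddCommGroup V] [Module (ZMod 2) V] (r : ℕ) (x : ι → V) :
    Prop :=
  ∀ p ∈ PP V r, ∑ i, p (x i) = 0

end RMH
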