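import Mathlib

set_option autoImplicit false

open scoped BigOperators
open Module

namespace RMH

section Pet

variable {K A : Type} [Field K] [CommRing A] [Algebra K A] [FiniteDimensional K A]

lemma finrank_map_add {B : Type} [AddCommGroup B] [Module K B] (f : A →ₗ[K] B)
    (Q : Submodule K A) :
    finrank K ↥(Q.map f) + finrank K ↥(Q ⊓ LinearMap.ker f) = finrank K Q := by
  have h := LinearMap.finrank_range_add_finrank_ker (f.domRestrict Q)
  rw [LinearMap.range_domRestrict] at h
  rw [← h]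
  congr 1
  have h2 : (Q ⊓ LinearMap.ker f) = (LinearMap.ker (f.domRestrict Q)).map Q.subtype := by
    ext x
    simp only [Submodule.mem_inf, LinearMap.mem_ker, Submodule.mem_map, Submodule.subtype_apply,
      LinearMap.domRestrict_apply]
    constructor
    · rintro ⟨h1, h2⟩
      exact ⟨⟨x, h1⟩, h2, rfl⟩
    · rintro ⟨y, hy, rfl⟩
      exact ⟨y.2, hy⟩
  rw [h2]
  exact (LinearEquiv.finrank_eq (Submodule.equivMapOfInjective _ Q.injective_subtype _)).symm

lemma finrank_sup_map (f : A →ₗ[K] A) (P Q : Submodule K A) :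
    finrank K ↥(P ⊔ Q.map f) + finrank K ↥(Q ⊓ P.comap f) = finrank K P + finrank K Q := by
  have h1 := Submodule.finrank_sup_add_finrank_inf_eq P (Q.map f)
  have h2 := finrank_map_add f Q
  have h3 := finrank_map_add f (Q ⊓ P.comap f)
  have h4 : (Q ⊓ P.comap f).map f = P ⊓ Q.map f := by
    ext x
    simp only [Submodule.mem_inf, Submodule.mem_map, Submodule.mem_comap]
    constructor
    · rintro ⟨y, ⟨hy1, hy2⟩, rfl⟩
      exact ⟨hy2, y, hy1, rfl⟩
    · rintro ⟨hx, y, hy, rfl⟩
      exact ⟨y, ⟨hy, hx⟩, rfl⟩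
  have h5 : Q ⊓ P.comap f ⊓ LinearMap.ker f = Q ⊓ LinearMap.ker f := by
    ext x
    simp only [Submodule.mem_inf, Submodule.mem_comap, LinearMap.mem_ker]
    constructor
    · rintro ⟨⟨h1, -⟩, h2⟩
      exact ⟨h1, h2⟩
    · rintro ⟨h1, h2⟩
      refine ⟨⟨h1, ?_⟩, h2⟩
      rw [h2]
      exact P.zero_mem
  rw [h4, h5] at h3
  omega

lemma mul_span_singleton (S : Submodule K A) (c : A) :
    S * Submodule.span K {c} = S.map (LinearMap.mulLeft K c) := by
  apply le_antisymm
  · rw [Submodule.mul_le]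
    intro s hs x hx
    obtain ⟨k, rfl⟩ := Submodule.mem_span_singleton.1 hx
    refine ⟨k • s, S.smul_mem k hs, ?_⟩
    simp [mul_comm]
  · rintro _ ⟨s, hs, rfl⟩
    have h := Submodule.mul_mem_mul hs (Submodule.mem_span_singleton_self (R := K) c)
    show c * s ∈ S * Submodule.span K {c}
    rw [mul_comm c s]
    exact h

/-- the linear form of the lemma of Petridis -/
lemma petridis_aux (L S : Submodule K A) (κ : ℝ)
    (hT : ∀ T : Submodule K A, T ≤ S → κ * finrank K T ≤ finrank K ↥(T * L))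
    (hS : (finrank K ↥(S * L) : ℝ) = κ * finrank K S) (s : Finset A) :
    (finrank K ↥(S * L * Submodule.span K (s : Set A)) : ℝ)
      ≤ κ * finrank K ↥(S * Submodule.span K (s : Set A)) := by
  classical
  induction s using Finset.induction_on with
  | empty =>
    rw [Finset.coe_empty, Submodule.span_empty, Submodule.mul_bot, Submodule.mul_bot]
    simp
  | insert c s hc ih =>
    have hspan : Submodule.span K ((insert c s : Finset A) : Set A)
        = Submodule.span K (s : Set A) ⊔ Submodule.span K {c} := by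
      rw [Finset.coe_insert, Submodule.span_insert, sup_comm]
    rw [hspan, Submodule.mul_sup, Submodule.mul_sup, mul_span_singleton, mul_span_singleton]
    set C := Submodule.span K (s : Set A)
    set f := LinearMap.mulLeft K c
    have h1 := finrank_sup_map f (S * L * C) (S * L)
    have h2 := finrank_sup_map f (S * C) S
    have h3 := hT (S ⊓ (S * C).comap f) inf_le_left
    have h4 : (S ⊓ (S * C).comap f) * L ≤ S * L ⊓ (S * L * C).comap f := by
      rw [Submodule.mul_le]
      intro x hx l hl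
      refine ⟨Submodule.mul_mem_mul hx.1 hl, ?_⟩
      have hx2 : c * x ∈ S * C := hx.2
      show c * (x * l) ∈ S * L * C
      rw [← mul_assoc, mul_right_comm]
      exact Submodule.mul_mem_mul hx2 hl
    have h5 := Submodule.finrank_mono h4
    have h1' : (finrank K ↥(S * L * C ⊔ (S * L).map f) : ℝ)
        + finrank K ↥(S * L ⊓ (S * L * C).comap f) = finrank K ↥(S * L * C)
          + finrank K ↥(S * L) := by exact_mod_cast h1
    have h2' : (finrank K ↥(S * C ⊔ S.map f) : ℝ)
        + finrank K ↥(S ⊓ (S * C).comap f) = finrank K ↥(S * C) + finrank K S := by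
      exact_mod_cast h2
    have h5' : (finrank K ↥((S ⊓ (S * C).comap f) * L) : ℝ)
        ≤ finrank K ↥(S * L ⊓ (S * L * C).comap f) := by exact_mod_cast h5
    have h6 : κ * (finrank K ↥(S * C ⊔ S.map f) : ℝ) = κ * finrank K ↥(S * C)
        + κ * finrank K S - κ * finrank K ↥(S ⊓ (S * C).comap f) := by
      rw [← mul_add, ← mul_sub]
      congr 1
      linarith
    rw [h6]
    linarith

lemma petridis_mul (L S : Submodule K A) (κ : ℝ)
    (hT : ∀ T : Submodule K A, T ≤ S → κ * finrank K T ≤ finrank K ↥(T * L))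
    (hS : (finrank K ↥(S * L) : ℝ) = κ * finrank K S) (C : Submodule K A) :
    (finrank K ↥(S * L * C) : ℝ) ≤ κ * finrank K ↥(S * C) := by
  obtain ⟨s, rfl⟩ : C.FG := Module.Finite.iff_fg.1 inferInstance
  exact petridis_aux L S κ hT hS s

lemma petridis_pow (L S : Submodule K A) (κ : ℝ) (hκ : 0 ≤ κ)
    (hT : ∀ T : Submodule K A, T ≤ S → κ * finrank K T ≤ finrank K ↥(T * L))
    (hS : (finrank K ↥(S * L) : ℝ) = κ * finrank K S) (j : ℕ) :
    (finrank K ↥(S * L ^ j) : ℝ) ≤ κ ^ j * finrank K S := by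
  induction j with
  | zero => rw [pow_zero, pow_zero, one_mul, mul_one]
  | succ j ih =>
    have h := petridis_mul L S κ hT hS (L ^ j)
    have h2 : S * L ^ (j + 1) = S * L * L ^ j := by rw [pow_succ', mul_assoc]
    rw [h2]
    calc (finrank K ↥(S * L * L ^ j) : ℝ) ≤ κ * finrank K ↥(S * L ^ j) := h
      _ ≤ κ * (κ ^ j * finrank K S) := mul_le_mul_of_nonneg_left ih hκ
      _ = κ ^ (j + 1) * finrank K S := by ring

/-- a nonzero subspace with small products by all powers -/
theorem exists_petridis [Finite A] (L D : Submodule K A) (hD : D ≠ ⊥) (κ0 : ℝ)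
    (h0 : (finrank K ↥(D * L) : ℝ) ≤ κ0 * finrank K D) :
    ∃ S : Submodule K A, S ≤ D ∧ S ≠ ⊥ ∧
      ∀ j : ℕ, (finrank K ↥(S * L ^ j) : ℝ) ≤ κ0 ^ j * finrank K S := by
  have hpos : ∀ S : Submodule K A, S ≠ ⊥ → (0 : ℝ) < finrank K S := by
    intro S hS
    have := Submodule.one_le_finrank_iff.2 hS
    exact_mod_cast this
  have hfin : (Set.univ : Set (Submodule K A)).Finite := by
    have : Finite (Submodule K A) := Finite.of_injective (fun S => (S : Set A)) SetLike.coe_injective
    exact Set.toFinite _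
  obtain ⟨S, ⟨hSD, hS0⟩, hmin⟩ := Set.exists_min_image {S : Submodule K A | S ≤ D ∧ S ≠ ⊥}
    (fun S => (finrank K ↥(S * L) : ℝ) / finrank K S) (hfin.subset (Set.subset_univ _))
    ⟨D, le_rfl, hD⟩
  set κ : ℝ := (finrank K ↥(S * L) : ℝ) / finrank K S with hκ
  have hκ0 : 0 ≤ κ := by positivity
  have hκle : κ ≤ κ0 := by
    refine (hmin D ⟨le_rfl, hD⟩).trans ?_
    rw [div_le_iff₀ (hpos D hD)]
    exact h0
  refine ⟨S, hSD, hS0, fun j => ?_⟩
  have h1 := petridis_pow L S κ hκ0 (fun T hT => ?_) ?_ j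
  · refine h1.trans ?_
    gcongr
  · rcases eq_or_ne T ⊥ with rfl | hT0
    · simp
    · have := hmin T ⟨hT.trans hSD, hT0⟩
      rwa [le_div_iff₀ (hpos T hT0)] at this
  · rw [hκ, div_mul_cancel₀ _ (hpos S hS0).ne']

end Pet

end RMH
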