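import Pool.Agent.Helper44.HO.NullCount

set_option autoImplicit false
set_option linter.unusedSectionVars false

open scoped BigOperators
open Classical Module

namespace RMH

/-- the statement of the moment theorem -/
def LargeCor : Prop :=
  ∀ (V : Type) [Fintype V] (W : Submodule (ZMod 2) (V → ZMod 2))
    (F : V → ℝ) (_ : ∀ x, F x ^ 2 = 1) (s : ℕ) (_ : 6 ≤ s) (_ : 4 * s ^ 2 ≤ Fintype.card V)
    (_ : ∑ v ∈ Finset.Icc 1 s, (2 * s / Fintype.card V : ℝ) ^ v * (nullCard W (2 * v) : ℝ)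
      ≤ 1 / 4),
    ∃ q ∈ W, ((s : ℝ) / Real.exp 1) * Fintype.card V ≤ RMC.cor F q ^ 2

lemma geom_bound (s : ℕ) : ∑ v ∈ Finset.Icc 1 s, ((1 : ℝ) / 64) ^ v ≤ 1 / 63 := by
  have h : ∑ v ∈ Finset.Icc 1 s, ((1 : ℝ) / 64) ^ v = 1 / 63 - 1 / 63 * (1 / 64) ^ s := by
    induction s with
    | zero => simp
    | succ s ih =>
      rw [Finset.sum_Icc_succ_top (by omega), ih, pow_succ]
      ring
  rw [h]
  have : (0 : ℝ) ≤ 1 / 63 * (1 / 64) ^ s := by positivity
  linarith

/-- large correlations with polynomials of degree `t + 2` -/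
theorem key_high (hB : ClosureCount) (hD : LargeCor) (t a κ lam s m : ℕ) (hs : 6 ≤ s)
    (ha : 4 * s < (a - t).choose t) (hκ : 2 * s ≤ 2 ^ κ) (hlam : m + 1 ≤ 2 ^ lam)
    (hm : 50 * κ * (2 * a + 14 + κ + lam) ≤ m / 4)
    (V : Type) [AddCommGroup V] [Module (ZMod 2) V] [Fintype V]
    (hV : Fintype.card V = 2 ^ m) (F : V → ℝ) (hF : ∀ x, F x ^ 2 = 1) :
    ∃ q ∈ PP V (t + 2), ((s : ℝ) / Real.exp 1) * Fintype.card V ≤ RMC.cor F q ^ 2 := by
  have hκ1 : 1 ≤ κ := by
    by_contra h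
    have : κ = 0 := by omega
    subst this
    rw [pow_zero] at hκ
    omega
  have hκm : 4 * κ ≤ m := by
    have h1 : κ ≤ 50 * κ * (2 * a + 14 + κ + lam) := by
      calc κ = κ * 1 := (mul_one κ).symm
        _ ≤ κ * (50 * (2 * a + 14 + κ + lam)) := Nat.mul_le_mul_left _ (by omega)
        _ = _ := by ring
    omega
  have hκR : (0 : ℝ) < κ := by exact_mod_cast hκ1
  refine hD V (PP V (t + 2)) F hF s hs ?_ ?_
  · rw [hV]
    calc 4 * s ^ 2 = (2 * s) ^ 2 := by ring
      _ ≤ (2 ^ κ) ^ 2 := Nat.pow_le_pow_left hκ 2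
      _ = 2 ^ (κ * 2) := by rw [← pow_mul]
      _ ≤ 2 ^ m := Nat.pow_le_pow_right (by norm_num) (by omega)
  · have hl : (2 * a + 14 + κ + lam : ℝ) ≤ ((m / 4 : ℕ) : ℝ) / (50 * κ) := by
      rw [le_div_iff₀ (by positivity)]
      have : ((50 * κ * (2 * a + 14 + κ + lam) : ℕ) : ℝ) ≤ ((m / 4 : ℕ) : ℝ) := by
        exact_mod_cast hm
      refine le_trans (le_of_eq ?_) this
      push_cast
      ring
    have hterm : ∀ v ∈ Finset.Icc 1 s, (2 * s / Fintype.card V : ℝ) ^ v
        * (nullCard (PP V (t + 2)) (2 * v) : ℝ) ≤ 4 * (1 / 64) ^ v := by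
      intro v hv
      rw [Finset.mem_Icc] at hv
      have h1 := null_count_cnt hB t a κ v m (by omega) (by omega) hv.1 V hV hκm
      have h2 : (nullCard (PP V (t + 2)) (2 * v) : ℝ)
          ≤ (cnt (fun x : Fin (2 * v) → V => Function.Injective x ∧ Null (t + 2) x) : ℝ) := by
        exact_mod_cast nullCard_le (V := V) (t + 2) (2 * v)
      have h3 := h2.trans h1
      have h4 : (2 * s / Fintype.card V : ℝ) ^ v ≤ P2 ((κ - m) * v) := by
        rw [hV]
        push_cast
        have h5 : (2 * s / 2 ^ m : ℝ) ≤ P2 (κ - m) := by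
          rw [div_le_iff₀ (by positivity), P2_nat, ← P2_add, sub_add_cancel, ← P2_nat]
          exact_mod_cast hκ
        calc (2 * s / 2 ^ m : ℝ) ^ v ≤ P2 (κ - m) ^ v := by
              gcongr
          _ = _ := P2_pow _ _
      have hlam' : (4 : ℝ) * (m + 1) ≤ 4 * P2 lam := by
        have h6 : ((m + 1 : ℕ) : ℝ) ≤ ((2 ^ lam : ℕ) : ℝ) := by exact_mod_cast hlam
        rw [Nat.cast_pow, Nat.cast_ofNat, P2_nat] at h6
        push_cast at h6
        linarith
      have hE0 : (2 : ℝ) ^ ((m * v : ℝ) + 2 * (a + 4) * v - 2 * v * (m / 4 : ℕ) / (100 * κ))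
          = P2 ((m * v : ℝ) + 2 * (a + 4) * v - 2 * v * (m / 4 : ℕ) / (100 * κ)) := rfl
      rw [hE0] at h3
      calc (2 * s / Fintype.card V : ℝ) ^ v * (nullCard (PP V (t + 2)) (2 * v) : ℝ)
          ≤ P2 ((κ - m) * v) * (4 * (m + 1)
            * P2 ((m * v : ℝ) + 2 * (a + 4) * v - 2 * v * (m / 4 : ℕ) / (100 * κ))) :=
            mul_le_mul h4 h3 (Nat.cast_nonneg _) (P2_pos _).le
        _ ≤ P2 ((κ - m) * v) * (4 * P2 lam
            * P2 ((m * v : ℝ) + 2 * (a + 4) * v - 2 * v * (m / 4 : ℕ) / (100 * κ))) :=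
            mul_le_mul_of_nonneg_left (mul_le_mul_of_nonneg_right hlam' (P2_pos _).le)
              (P2_pos _).le
        _ = 4 * P2 (((κ - m) * v + lam)
            + ((m * v : ℝ) + 2 * (a + 4) * v - 2 * v * (m / 4 : ℕ) / (100 * κ))) := by
            rw [P2_add ((κ - m) * v + lam), P2_add ((κ - m) * v)]
            ring
        _ ≤ 4 * P2 (-6 * v) := by
            refine mul_le_mul_of_nonneg_left (P2_mono ?_) (by norm_num)
            have hv1 : (1 : ℝ) ≤ v := by exact_mod_cast hv.1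
            have h7 : (2 * v * (m / 4 : ℕ) / (100 * κ) : ℝ)
                = v * (((m / 4 : ℕ) : ℝ) / (50 * κ)) := by
              field_simp
              ring
            rw [h7]
            have h8 : (v : ℝ) * (2 * a + 14 + κ + lam) ≤ v * (((m / 4 : ℕ) : ℝ) / (50 * κ)) :=
              mul_le_mul_of_nonneg_left hl (by linarith)
            have h9 : (0 : ℝ) ≤ lam := Nat.cast_nonneg _
            nlinarith
        _ = 4 * (1 / 64) ^ v := by
            have h10 : P2 (-6) = 1 / 64 := by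
              unfold P2
              rw [show (-6 : ℝ) = -((6 : ℕ) : ℝ) by norm_num, Real.rpow_neg (by norm_num),
                Real.rpow_natCast]
              norm_num
            rw [← h10, P2_pow]
    refine (Finset.sum_le_sum hterm).trans ?_
    rw [← Finset.mul_sum]
    have := geom_bound s
    linarith

end RMH
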