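import Pool.Agent.Helper44.HO.Dich
import Pool.Agent.Helper71.RMC.Moeb

set_option autoImplicit false
set_option linter.unusedSectionVars false

open scoped BigOperators
open Classical Module

namespace RMH

section Basic

variable {V W : Type} [AddCommGroup V] [Module (ZMod 2) V] [AddCommGroup W] [Module (ZMod 2) W]

lemma one_mem_Aff44 : (1 : V → ZMod 2) ∈ Aff V :=
  Submodule.subset_span (Set.mem_insert _ _)

lemma dual_mem_Aff44 (a : Module.Dual (ZMod 2) V) : (fun x => a x) ∈ Aff V :=
  Submodule.subset_span (Set.mem_insert_of_mem _ ⟨a, rfl⟩)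

/-- pullback as an algebra homomorphism -/
def pullA {ι U : Type} (y : ι → U) : (U → ZMod 2) →ₐ[ZMod 2] (ι → ZMod 2) :=
  AlgHom.pi (fun i => Pi.evalAlgHom (ZMod 2) (fun _ => ZMod 2) (y i))

lemma pullA_toLinearMap {ι U : Type} (y : ι → U) : (pullA y).toLinearMap = pull y := rfl

lemma map_pull_pow {ι U : Type} (y : ι → U) (M : Submodule (ZMod 2) (U → ZMod 2)) (r : ℕ) :
    (M ^ r).map (pull y) = (M.map (pull y)) ^ r := by
  rw [← pullA_toLinearMap]
  exact Submodule.map_pow M (pullA y) r

lemma map_pull_mul {ι U : Type} (y : ι → U) (M N : Submodule (ZMod 2) (U → ZMod 2)) :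
    (M * N).map (pull y) = M.map (pull y) * N.map (pull y) := by
  rw [← pullA_toLinearMap]
  exact Submodule.map_mul M N (pullA y)

lemma map_pull_pull {ι κ U : Type} (y : ι → U) (z : κ → ι) (M : Submodule (ZMod 2) (U → ZMod 2)) :
    (M.map (pull y)).map (pull z) = M.map (pull (y ∘ z)) := by
  rw [← Submodule.map_comp]
  rfl

lemma one_mem_PP (r : ℕ) : (1 : V → ZMod 2) ∈ PP V r := by
  induction r with
  | zero => rw [PP, pow_zero]; exact Submodule.one_le.1 le_rfl
  | succ r ih =>
    have := Submodule.mul_mem_mul ih (one_mem_Aff44 (V := V))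
    rw [mul_one] at this
    rwa [PP, pow_succ]

lemma mul_mem_PP {r s : ℕ} {p q : V → ZMod 2} (hp : p ∈ PP V r) (hq : q ∈ PP V s) :
    p * q ∈ PP V (r + s) := by
  rw [PP, pow_add]
  exact Submodule.mul_mem_mul hp hq

lemma PP_one : PP V 1 = Aff V := by rw [PP, pow_one]

lemma PP_le_succ (r : ℕ) : PP V r ≤ PP V (r + 1) := by
  intro p hp
  have := mul_mem_PP hp (by rw [PP_one]; exact one_mem_Aff44 (V := V) : (1 : V → ZMod 2) ∈ PP V 1)
  rwa [mul_one] at this

lemma PP_mono {r s : ℕ} (h : r ≤ s) : PP V r ≤ PP V s :=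
  monotone_nat_of_le_succ (f := PP V) PP_le_succ h

lemma Aff_comp (φ : V →ₗ[ZMod 2] W) : (Aff W).map (pull φ) ≤ Aff V := by
  rw [Aff, Submodule.map_span, Submodule.span_le]
  rintro _ ⟨f, hf, rfl⟩
  rcases hf with rfl | ⟨a, rfl⟩
  · exact one_mem_Aff44
  · exact dual_mem_Aff44 (a.comp φ)

lemma PP_comp (φ : V →ₗ[ZMod 2] W) (r : ℕ) : (PP W r).map (pull φ) ≤ PP V r := by
  rw [PP, map_pull_pow, PP]
  induction r with
  | zero => rw [pow_zero, pow_zero]
  | succ r ih =>
    rw [pow_succ, pow_succ]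
    exact mul_le_mul' ih (Aff_comp φ)

lemma comp_mem_PP (φ : V →ₗ[ZMod 2] W) {r : ℕ} {p : W → ZMod 2} (hp : p ∈ PP W r) :
    (fun x => p (φ x)) ∈ PP V r :=
  PP_comp φ r ⟨p, hp, rfl⟩

variable {ι : Type} [Fintype ι]

lemma Null.comp {r : ℕ} {x : ι → V} (h : Null r x) (φ : V →ₗ[ZMod 2] W) :
    Null r (fun i => φ (x i)) := fun p hp => h (fun v => p (φ v)) (comp_mem_PP φ hp)

lemma Null.mono {r s : ℕ} (hrs : r ≤ s) {x : ι → V} (h : Null s x) : Null r x :=
  fun p hp => h p (PP_mono hrs hp)

/-- the orthogonal complement -/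
def perp (D : Submodule (ZMod 2) (ι → ZMod 2)) : Submodule (ZMod 2) (ι → ZMod 2) where
  carrier := {f | ∀ d ∈ D, ∑ i, f i * d i = 0}
  zero_mem' := fun d _ => by simp
  add_mem' := fun {f g} hf hg d hd => by
    simp only [Pi.add_apply, add_mul, Finset.sum_add_distrib, hf d hd, hg d hd, add_zero]
  smul_mem' := fun a f hf d hd => by
    simp only [Pi.smul_apply, smul_eq_mul, mul_assoc, ← Finset.mul_sum, hf d hd, mul_zero]

lemma mem_perp {D : Submodule (ZMod 2) (ι → ZMod 2)} {f : ι → ZMod 2} :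
    f ∈ perp D ↔ ∀ d ∈ D, ∑ i, f i * d i = 0 := Iff.rfl

lemma finrank_perp (D : Submodule (ZMod 2) (ι → ZMod 2)) :
    finrank (ZMod 2) D + finrank (ZMod 2) (perp D) = Fintype.card ι := by
  have h1 := Subspace.finrank_add_finrank_dualAnnihilator_eq D
  rw [finrank_fintype_fun_eq_card] at h1
  rw [← h1]
  congr 1
  have h2 : perp D = D.dualAnnihilator.map (dotProductEquiv (ZMod 2) ι).symm.toLinearMap := by
    ext f
    rw [mem_perp, Submodule.mem_map]
    constructor
    · intro h
      refine ⟨dotProductEquiv (ZMod 2) ι f, ?_, ?_⟩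
      · rw [Submodule.mem_dualAnnihilator]
        intro d hd
        exact h d hd
      · exact LinearEquiv.symm_apply_apply _ f
    · rintro ⟨g, hg, rfl⟩ d hd
      rw [Submodule.mem_dualAnnihilator] at hg
      have := hg d hd
      have h3 : g = dotProductEquiv (ZMod 2) ι ((dotProductEquiv (ZMod 2) ι).symm g) :=
        (LinearEquiv.apply_symm_apply _ g).symm
      rw [h3] at this
      exact this
  rw [h2]
  exact LinearEquiv.finrank_map_eq _ _

/-- the rows of the second component are orthogonal to the degree `r` functions of the first -/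
lemma Null.rows {r : ℕ} {x : ι → V × W} (h : Null (r + 1) x) (b : Module.Dual (ZMod 2) W) :
    (fun i => b (x i).2) ∈ perp ((PP V r).map (pull (fun i => (x i).1))) := by
  rw [mem_perp]
  rintro _ ⟨p, hp, rfl⟩
  have h1 : (fun v : V × W => p v.1) ∈ PP (V × W) r := comp_mem_PP (LinearMap.fst (ZMod 2) V W) hp
  have h2 : (fun v : V × W => b v.2) ∈ PP (V × W) 1 := by
    rw [PP_one]
    exact dual_mem_Aff44 (b.comp (LinearMap.snd (ZMod 2) V W))
  have h3 := h _ (mul_mem_PP h1 h2)
  rw [← h3]
  refine Finset.sum_congr rfl (fun i _ => ?_)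
  rw [pull_apply, Pi.mul_apply]
  exact mul_comm _ _

end Basic

/-- the number of elements with a property -/
noncomputable def cnt {A : Type} (P : A → Prop) : ℕ := Nat.card {x : A // P x}

lemma cnt_eq {A : Type} [Fintype A] (P : A → Prop) [DecidablePred P] :
    cnt P = (Finset.univ.filter P).card := by
  rw [cnt, Nat.card_eq_fintype_card, Fintype.card_subtype]

lemma cnt_le_of_inj {A B : Type} [Finite B] {P : A → Prop} {Q : B → Prop} (f : A → B)
    (hf : ∀ x, P x → Q (f x)) (hi : ∀ x y, P x → P y → f x = f y → x = y) : cnt P ≤ cnt Q := by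
  refine Nat.card_le_card_of_injective (fun x : {x : A // P x} => (⟨f x, hf x x.2⟩ : {y // Q y})) ?_
  intro x y hxy
  exact Subtype.ext (hi x y x.2 y.2 (congrArg Subtype.val hxy))

lemma cnt_mono {A : Type} [Finite A] {P Q : A → Prop} (h : ∀ x, P x → Q x) : cnt P ≤ cnt Q :=
  cnt_le_of_inj (fun x => x) h (fun _ _ _ _ h => h)

section Count

variable {ι : Type} [Fintype ι]
variable {V W : Type} [AddCommGroup V] [Module (ZMod 2) V] [Fintype V]
  [AddCommGroup W] [Module (ZMod 2) W] [Fintype W]

/-- number of null families -/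
noncomputable def nX (ι : Type) [Fintype ι] (V : Type) [AddCommGroup V] [Module (ZMod 2) V]
    (r : ℕ) : ℕ :=
  cnt (fun x : ι → V => Null r x)

/-- the number of completions of `z` -/
lemma card_rows (D : Submodule (ZMod 2) (ι → ZMod 2)) :
    cnt (fun y : ι → W => ∀ b : Module.Dual (ZMod 2) W, (fun i => b (y i)) ∈ perp D)
      = Fintype.card W ^ (Fintype.card ι - finrank (ZMod 2) D) := by
  have h1 := finrank_perp D
  have h2 : Fintype.card ι - finrank (ZMod 2) D = finrank (ZMod 2) (perp D) := by omega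
  rw [h2, ← RM44.card_CV_so (V := W) (perp D), ← Nat.card_eq_fintype_card]
  rfl

/-- splitting off the second component -/
theorem card_split (r : ℕ) (G : (ι → V) → Prop) :
    cnt (fun x : ι → V × W => Null (r + 1) x ∧ G (fun i => (x i).1))
      ≤ ∑ z ∈ Finset.univ.filter (fun z : ι → V => Null (r + 1) z ∧ G z),
        Fintype.card W ^ (Fintype.card ι - finrank (ZMod 2) ↥((PP V r).map (pull z))) := by
  rw [cnt_eq]
  have h1 : (Finset.univ.filter (fun x : ι → V × W => Null (r + 1) x ∧ G (fun i => (x i).1))).card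
      = ∑ z ∈ Finset.univ.filter (fun z : ι → V => Null (r + 1) z ∧ G z),
        ((Finset.univ.filter (fun x : ι → V × W =>
          Null (r + 1) x ∧ G (fun i => (x i).1))).filter (fun x => (fun i => (x i).1) = z)).card := by
    refine Finset.card_eq_sum_card_fiberwise (fun x hx => ?_)
    rw [Finset.mem_coe, Finset.mem_filter] at hx
    rw [Finset.mem_coe, Finset.mem_filter]
    exact ⟨Finset.mem_univ _, hx.2.1.comp (LinearMap.fst (ZMod 2) V W), hx.2.2⟩
  rw [h1]
  refine Finset.sum_le_sum (fun z _ => ?_)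
  rw [← card_rows (W := W), cnt_eq]
  refine Finset.card_le_card_of_injOn (fun x i => (x i).2) ?_ ?_
  · intro x hx
    rw [Finset.mem_coe, Finset.mem_filter, Finset.mem_filter] at hx
    rw [Finset.mem_coe, Finset.mem_filter]
    refine ⟨Finset.mem_univ _, fun b => ?_⟩
    have := hx.1.2.1.rows b
    rwa [hx.2] at this
  · intro x hx x' hx' hxx
    rw [Finset.mem_coe, Finset.mem_filter] at hx hx'
    funext i
    refine Prod.ext ?_ (congrFun hxx i)
    have h3 := congrFun hx.2 i
    have h4 := congrFun hx'.2 i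
    exact h3.trans h4.symm

/-- transfer along a linear equivalence -/
lemma null_equiv (e : V ≃ₗ[ZMod 2] W) (r : ℕ) (x : ι → V) :
    Null r (fun i => e (x i)) ↔ Null r x := by
  constructor
  · intro h
    have := h.comp e.symm.toLinearMap
    simpa using this
  · intro h
    exact h.comp e.toLinearMap

lemma nX_equiv (e : V ≃ₗ[ZMod 2] W) (r : ℕ) : nX ι V r ≤ nX ι W r := by
  unfold nX
  refine cnt_le_of_inj (fun x i => e (x i)) (fun x hx => (null_equiv e r x).2 hx) ?_
  intro x y _ _ hxy
  funext i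
  exact e.injective (congrFun hxy i)

end Count

lemma equiv_of_card (V W : Type) [AddCommGroup V] [Module (ZMod 2) V] [Fintype V]
    [AddCommGroup W] [Module (ZMod 2) W] [Fintype W] (m : ℕ) (hV : Fintype.card V = 2 ^ m)
    (hW : Fintype.card W = 2 ^ m) : Nonempty (V ≃ₗ[ZMod 2] W) := by
  apply FiniteDimensional.nonempty_linearEquiv_of_finrank_eq
  have h1 := Module.card_eq_pow_finrank (K := ZMod 2) (V := V)
  rw [hV, ZMod.card] at h1
  have h2 := Module.card_eq_pow_finrank (K := ZMod 2) (V := W)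
  rw [hW, ZMod.card] at h2
  exact (Nat.pow_right_injective (le_refl 2) h1).symm.trans
    (Nat.pow_right_injective (le_refl 2) h2)

end RMH
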